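import Pool.Agent.T6.H63.ZC.Er

/-!
Project ZC (helper63), MP_4fa179_mp: the mean number of points at the level `u`.
-/

set_option autoImplicit false
open MeasureTheory Filter Topology
open scoped ContDiff ENNReal

namespace Pool.Agent.T6.H63.ZC

open Pool.Agent.Y139.SW Pool.Agent.T6.H63.GS

noncomputable section

section comb

/-- the number of cells of length `δ`, among the first `M`, which meet `X` -/
def nc (X : Set ℝ) (δ : ℝ) (M : ℕ) : ℝ≥0∞ :=
  ∑ j ∈ Finset.range M, ({j : ℕ | (X ∩ Set.Ico ((j : ℝ) * δ) (((j : ℝ) + 1) * δ)).Nonempty}).indicator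
    (fun _ => (1 : ℝ≥0∞)) j

lemma nc_eq (X : Set ℝ) (δ : ℝ) (M : ℕ) [DecidablePred fun j : ℕ =>
    (X ∩ Set.Ico ((j : ℝ) * δ) (((j : ℝ) + 1) * δ)).Nonempty] :
    nc X δ M = (((Finset.range M).filter fun j : ℕ =>
      (X ∩ Set.Ico ((j : ℝ) * δ) (((j : ℝ) + 1) * δ)).Nonempty).card : ℝ≥0∞) := by
  unfold nc
  rw [Finset.card_filter]
  push_cast
  refine Finset.sum_congr rfl fun j _ => ?_
  by_cases h : (X ∩ Set.Ico ((j : ℝ) * δ) (((j : ℝ) + 1) * δ)).Nonempty
  · rw [Set.indicator_of_mem (by exact h), if_pos h]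
  · rw [Set.indicator_of_notMem (by exact h), if_neg h]

lemma nc_le {X : Set ℝ} {δ : ℝ} (hδ : 0 < δ) (M : ℕ) : nc X δ M ≤ (X.encard : ℝ≥0∞) := by
  classical
  rw [nc_eq]
  obtain ⟨J, hJ⟩ : ∃ J : Finset ℕ, J = (Finset.range M).filter fun j : ℕ =>
      (X ∩ Set.Ico ((j : ℝ) * δ) (((j : ℝ) + 1) * δ)).Nonempty := ⟨_, rfl⟩
  rw [← hJ]
  have h1 : (J : Set ℕ) ⊆ (fun z : ℝ => ⌊z / δ⌋.toNat) '' X := by
    intro j hj
    rw [hJ, Finset.mem_coe, Finset.mem_filter] at hj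
    obtain ⟨z, hzX, hz⟩ := hj.2
    refine ⟨z, hzX, ?_⟩
    have : ⌊z / δ⌋ = (j : ℤ) := by
      rw [Int.floor_eq_iff]
      exact ⟨by rw [le_div_iff₀ hδ]; exact_mod_cast hz.1,
        by rw [div_lt_iff₀ hδ]; exact_mod_cast hz.2⟩
    show ⌊z / δ⌋.toNat = j
    rw [this]; rfl
  have h2 : ((J : Set ℕ)).encard ≤ X.encard :=
    (Set.encard_le_encard h1).trans (Set.encard_image_le _ _)
  rw [Set.encard_coe_eq_coe_finsetCard] at h2
  have h3 : (((J.card : ℕ∞)) : ℝ≥0∞) ≤ (X.encard : ℝ≥0∞) := ENat.toENNReal_le.2 h2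
  simpa using h3

/-- the cells of level `n` -/
def Nn (X : Set ℝ) (T : ℝ) (n : ℕ) : ℝ≥0∞ := nc X (T / 2 ^ n) (2 ^ n)

lemma sep (F : Finset ℝ) : ∃ γ > 0, ∀ x ∈ F, ∀ y ∈ F, x ≠ y → γ ≤ |x - y| := by
  classical
  by_cases hne : (F.offDiag).Nonempty
  · obtain ⟨p, hp, hmin⟩ := Finset.exists_min_image F.offDiag (fun p => |p.1 - p.2|) hne
    rw [Finset.mem_offDiag] at hp
    refine ⟨|p.1 - p.2|, abs_pos.2 (sub_ne_zero.2 hp.2.2), fun x hx y hy hxy => ?_⟩
    exact hmin (x, y) (Finset.mem_offDiag.2 ⟨hx, hy, hxy⟩)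
  · refine ⟨1, one_pos, fun x hx y hy hxy => ?_⟩
    exact absurd ⟨(x, y), Finset.mem_offDiag.2 ⟨hx, hy, hxy⟩⟩ hne

/-- finite sets are separated by small cells -/
lemma fin_le {X : Set ℝ} {T : ℝ} (hT : 0 < T) (hX : X ⊆ Set.Ico 0 T) {F : Finset ℝ}
    (hF : (F : Set ℝ) ⊆ X) : ∀ᶠ n in atTop, (F.card : ℝ≥0∞) ≤ Nn X T n := by
  classical
  obtain ⟨γ, γ0, hγ⟩ := sep F
  have t : Tendsto (fun n : ℕ => T / 2 ^ n) atTop (𝓝 0) := by
    have := (tendsto_pow_atTop_nhds_zero_of_lt_one (r := (1 / 2 : ℝ)) (by norm_num)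
      (by norm_num)).const_mul T
    rw [mul_zero] at this
    refine this.congr fun n => ?_
    rw [one_div, inv_pow]; rfl
  filter_upwards [t.eventually (gt_mem_nhds γ0)] with n hn
  have δ0 : 0 < T / 2 ^ n := by positivity
  unfold Nn
  rw [nc_eq]
  have : F.card ≤ ((Finset.range (2 ^ n)).filter fun j : ℕ =>
      (X ∩ Set.Ico ((j : ℝ) * (T / 2 ^ n)) (((j : ℝ) + 1) * (T / 2 ^ n))).Nonempty).card := by
    refine Finset.card_le_card_of_injOn (fun z => ⌊z / (T / 2 ^ n)⌋₊) ?_ ?_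
    · intro z hz
      have hzX := hF hz
      have z0 := (hX hzX).1
      have zT := (hX hzX).2
      rw [Finset.mem_coe, Finset.mem_filter, Finset.mem_range]
      have q0 : 0 ≤ z / (T / 2 ^ n) := by positivity
      refine ⟨?_, z, hzX, ?_, ?_⟩
      · rw [Nat.floor_lt q0, div_lt_iff₀ δ0]
        push_cast
        rw [mul_div_cancel₀ _ (by positivity)]
        exact zT
      · have := Nat.floor_le q0
        rwa [le_div_iff₀ δ0] at this
      · have := Nat.lt_floor_add_one (z / (T / 2 ^ n))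
        rwa [div_lt_iff₀ δ0] at this
    · intro x hx y hy hxy
      by_contra hne
      have g := hγ x hx y hy hne
      have hxy' : ⌊x / (T / 2 ^ n)⌋₊ = ⌊y / (T / 2 ^ n)⌋₊ := hxy
      have x0 : 0 ≤ x / (T / 2 ^ n) := div_nonneg (hX (hF hx)).1 δ0.le
      have y0 : 0 ≤ y / (T / 2 ^ n) := div_nonneg (hX (hF hy)).1 δ0.le
      have a1 := Nat.floor_le x0
      have a2 := Nat.lt_floor_add_one (x / (T / 2 ^ n))
      have b1 := Nat.floor_le y0
      have b2 := Nat.lt_floor_add_one (y / (T / 2 ^ n))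
      rw [hxy'] at a1 a2
      rw [le_div_iff₀ δ0] at a1 b1
      rw [div_lt_iff₀ δ0] at a2 b2
      have : |x - y| < T / 2 ^ n := by
        rw [abs_lt]
        constructor <;> nlinarith
      linarith
  exact_mod_cast this

lemma encard_le_liminf {X : Set ℝ} {T : ℝ} (hT : 0 < T) (hX : X ⊆ Set.Ico 0 T) :
    (X.encard : ℝ≥0∞) ≤ liminf (fun n => Nn X T n) atTop := by
  by_cases hfin : X.Finite
  · have h := fin_le hT hX (F := hfin.toFinset) (by rw [Set.Finite.coe_toFinset])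
    have e : (X.encard : ℝ≥0∞) = (hfin.toFinset.card : ℝ≥0∞) := by
      rw [hfin.encard_eq_coe_toFinset_card]; simp
    rw [e]
    exact le_liminf_of_le (by isBoundedDefault) h
  · have hinf : X.Infinite := hfin
    have : ∀ k : ℕ, (k : ℝ≥0∞) ≤ liminf (fun n => Nn X T n) atTop := by
      intro k
      obtain ⟨F, hF, hk⟩ := hinf.exists_subset_card_eq k
      have h := fin_le hT hX hF
      rw [hk] at h
      exact le_liminf_of_le (by isBoundedDefault) h
    have top : liminf (fun n => Nn X T n) atTop = ⊤ := by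
      by_contra hne
      obtain ⟨k, hk⟩ := ENNReal.exists_nat_gt hne
      exact absurd (this k) (not_le.2 hk)
    rw [top]; exact le_top

lemma encard_eq_liminf {X : Set ℝ} {T : ℝ} (hT : 0 < T) (hX : X ⊆ Set.Ico 0 T) :
    (X.encard : ℝ≥0∞) = liminf (fun n => Nn X T n) atTop := by
  refine le_antisymm (encard_le_liminf hT hX) ?_
  refine liminf_le_of_le (by isBoundedDefault) fun b hb => ?_
  obtain ⟨n, hn⟩ := hb.exists
  exact hn.trans (nc_le (by positivity) _)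

end comb

variable {d : ℕ} {S : Type*} [MeasurableSpace S] {P : Measure S} {τ : E d → S → S}

/-- the points of the segment at the level `u` -/
def Lv (f : E d → ℝ) (v : E d) (u T : ℝ) : Set ℝ := {t | t ∈ Set.Ico 0 T ∧ f (t • v) = u}

lemma cell_iff {G : S → E d → ℝ} (v : E d) (u : ℝ) {T : ℝ} (n : ℕ) {j : ℕ}
    (hT : 0 < T) (hj : j < 2 ^ n) (s : S) :
    (Lv (G s) v u T ∩ Set.Ico ((j : ℝ) * (T / 2 ^ n)) (((j : ℝ) + 1) * (T / 2 ^ n))).Nonempty ↔
      s ∈ Zs G v u ((j : ℝ) * (T / 2 ^ n)) (((j : ℝ) + 1) * (T / 2 ^ n)) := by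
  constructor
  · rintro ⟨t, h1, h2⟩
    exact ⟨t, h2, h1.2⟩
  · rintro ⟨t, h2, h1⟩
    refine ⟨t, ⟨⟨?_, ?_⟩, h1⟩, h2⟩
    · exact le_trans (by positivity) h2.1
    · refine lt_of_lt_of_le h2.2 ?_
      have : ((j : ℝ) + 1) ≤ 2 ^ n := by exact_mod_cast hj
      calc ((j : ℝ) + 1) * (T / 2 ^ n) ≤ 2 ^ n * (T / 2 ^ n) :=
            mul_le_mul_of_nonneg_right this (by positivity)
        _ = T := by field_simp

lemma Nn_eq {G : S → E d → ℝ} (v : E d) (u : ℝ) {T : ℝ} (n : ℕ) (hT : 0 < T) (s : S) :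
    Nn (Lv (G s) v u T) T n = ∑ j ∈ Finset.range (2 ^ n),
      (Zs G v u ((j : ℝ) * (T / 2 ^ n)) (((j : ℝ) + 1) * (T / 2 ^ n))).indicator
        (fun _ => (1 : ℝ≥0∞)) s := by
  unfold Nn nc
  refine Finset.sum_congr rfl fun j hj => ?_
  have := cell_iff v u n hT (Finset.mem_range.1 hj) (G := G) s
  by_cases h : s ∈ Zs G v u ((j : ℝ) * (T / 2 ^ n)) (((j : ℝ) + 1) * (T / 2 ^ n))
  · rw [Set.indicator_of_mem h, Set.indicator_of_mem (by exact this.2 h)]
  · rw [Set.indicator_of_notMem h, Set.indicator_of_notMem (by exact fun h' => h (this.1 h'))]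

lemma meas_Nn {G : S → E d → ℝ} (h : SF τ G) (v : E d) (u : ℝ) {T : ℝ} (n : ℕ) (hT : 0 < T) :
    Measurable fun s => Nn (Lv (G s) v u T) T n := by
  simp only [Nn_eq v u n hT]
  exact Finset.measurable_fun_sum _ fun j _ =>
    measurable_const.indicator (meas_Zs h v u _ _)

/-- **the mean number of points at the level `u`** -/
theorem mean_count [IsProbabilityMeasure P] (hτ : ∀ x, MeasurePreserving (τ x) P P)
    {G : S → E d → ℝ} (W : Wave P τ G) (v : E d) (hv : ‖v‖ ≤ 1) (u : ℝ) {T : ℝ} (hT : 0 < T) :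
    Measurable (fun s => ((Lv (G s) v u T).encard : ℝ≥0∞)) ∧
    MeasurableSet (As G v u) ∧
    ∫⁻ s in As G v u, ((Lv (G s) v u T).encard : ℝ≥0∞) ∂P ≤
      ENNReal.ofReal (T / Real.pi) * P (As G v u) := by
  have h := W.sf
  have e : (fun s => ((Lv (G s) v u T).encard : ℝ≥0∞)) =
      fun s => liminf (fun n => Nn (Lv (G s) v u T) T n) atTop := by
    funext s
    exact encard_eq_liminf hT fun t ht => ht.1
  have mN := fun n => meas_Nn h v u n hT
  have mA := meas_As h v u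
  refine ⟨?_, mA, ?_⟩
  · rw [e]
    exact Measurable.liminf mN
  · rw [e]
    refine (lintegral_liminf_le mN).trans ?_
    refine liminf_le_of_le (by isBoundedDefault) fun b hb => ?_
    obtain ⟨n, hn⟩ := hb.exists
    refine hn.trans ?_
    simp only [Nn_eq v u n hT]
    rw [lintegral_finsetSum _ fun j _ => measurable_const.indicator (meas_Zs h v u _ _)]
    obtain ⟨δ, hδ⟩ : ∃ δ : ℝ, δ = T / 2 ^ n := ⟨_, rfl⟩
    have δ0 : 0 < δ := by rw [hδ]; positivity
    rw [← hδ]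
    have each : ∀ j ∈ Finset.range (2 ^ n), ∫⁻ s in As G v u,
        (Zs G v u ((j : ℝ) * δ) (((j : ℝ) + 1) * δ)).indicator (fun _ => (1 : ℝ≥0∞)) s ∂P ≤
        ENNReal.ofReal (δ / Real.pi) * P (As G v u) := by
      intro j _
      rw [lintegral_indicator_const (meas_Zs h v u _ _), one_mul,
        Measure.restrict_apply (meas_Zs h v u _ _)]
      have s1 := shift_ZA hτ h v u 0 δ ((j : ℝ) * δ)
      rw [show (0 : ℝ) + j * δ = j * δ by ring, show δ + j * δ = ((j : ℝ) + 1) * δ by ring] at s1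
      rw [s1]
      have c := cell hτ W v hv u δ0
      have : P (Zs G v u 0 δ ∩ As G v u) = ENNReal.ofReal (P.real (Zs G v u 0 δ ∩ As G v u)) := by
        rw [Measure.real, ENNReal.ofReal_toReal (measure_ne_top _ _)]
      rw [this]
      refine (ENNReal.ofReal_le_ofReal c).trans (le_of_eq ?_)
      rw [ENNReal.ofReal_mul (by positivity), Measure.real,
        ENNReal.ofReal_toReal (measure_ne_top _ _)]
    refine (Finset.sum_le_sum each).trans (le_of_eq ?_)
    rw [Finset.sum_const, Finset.card_range, nsmul_eq_mul, ← mul_assoc]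
    congr 1
    have : ((2 ^ n : ℕ) : ℝ≥0∞) = ENNReal.ofReal (2 ^ n) := by
      rw [← ENNReal.ofReal_natCast]; push_cast; rfl
    rw [this, ← ENNReal.ofReal_mul (by positivity), hδ]
    congr 1
    field_simp

end

end Pool.Agent.T6.H63.ZC
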