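import Pool.Agent.T6.H63.ZC.Fi

/-!
Project ZC (helper63), MP_4fa179_mp: fields whose law is stationary.
-/

set_option autoImplicit false
open MeasureTheory Filter Topology
open scoped ContDiff ENNReal

namespace Pool.Agent.T6.H63.ZC

open Pool.Agent.Y139.SW Pool.Agent.T6.H63.GS

noncomputable section

variable {d : ℕ} {S : Type*} [MeasurableSpace S] {P : Measure S}

/-- the canonical version -/
theorem canon [IsProbabilityMeasure P] {F : S → E d → ℝ} (mF : ∀ y, Measurable fun s => F s y)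
    (sF : ∀ s, ContDiff ℝ ∞ (F s)) (eF : ∀ s y, Lap (F s) y + F s y = 0)
    (st : ∀ x : E d, P.map (fun s y => F s (y + x)) = P.map (fun s y => F s y))
    (l2 : Integrable (fun s => F s 0 ^ 2) P) :
    ∃ Φ : S → Sp d, Measurable Φ ∧ (∀ s, (Φ s).1 = F s) ∧ IsProbabilityMeasure (P.map Φ) ∧
      (∀ x : E d, MeasurePreserving (sh x) (P.map Φ) (P.map Φ)) ∧
      Wave (P.map Φ) sh (fun f : Sp d => f.1) := by
  obtain ⟨Φ, hΦ⟩ : ∃ Φ : S → Sp d, Φ = fun s => ⟨F s, sF s, fun y => by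
    have := eF s y; linarith⟩ := ⟨_, rfl⟩
  have v1 : ∀ s, (Φ s).1 = F s := fun s => by rw [hΦ]
  have mΦ : Measurable Φ := by
    rw [hΦ]
    exact Measurable.subtype_mk (measurable_pi_iff.2 mF)
  have hQ : IsProbabilityMeasure (P.map Φ) := Measure.isProbabilityMeasure_map mΦ.aemeasurable
  refine ⟨Φ, mΦ, v1, hQ, ?_, ?_⟩
  · intro x
    refine ⟨sh_me x, ?_⟩
    rw [Measure.map_map (sh_me x) mΦ]
    ext A mA
    obtain ⟨B, mB, rfl⟩ := mA
    have e1 : ((sh x ∘ Φ) ⁻¹' (Subtype.val ⁻¹' B)) = (fun s y => F s (y + x)) ⁻¹' B := by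
      ext s
      show (fun y => (Φ s).1 (y + x)) ∈ B ↔ (fun y => F s (y + x)) ∈ B
      rw [v1]
    have e2 : (Φ ⁻¹' (Subtype.val ⁻¹' B)) = (fun s y => F s y) ⁻¹' B := by
      ext s
      show (Φ s).1 ∈ B ↔ (fun y => F s y) ∈ B
      rw [v1]
    have mV : MeasurableSet (Subtype.val ⁻¹' B : Set (Sp d)) := ⟨B, mB, rfl⟩
    rw [Measure.map_apply ((sh_me x).comp mΦ) mV, Measure.map_apply mΦ mV, e1, e2,
      ← Measure.map_apply (measurable_pi_iff.2 fun y => mF (y + x)) mB,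
      ← Measure.map_apply (measurable_pi_iff.2 fun y => mF y) mB, st x]
  · refine ⟨⟨fun y => (measurable_pi_apply y).comp measurable_subtype_coe, fun f => f.2.1,
      fun x f y => rfl⟩, fun f y => f.2.2 y, ?_⟩
    have m0 : Measurable fun f : Sp d => f.1 0 :=
      (measurable_pi_apply 0).comp measurable_subtype_coe
    refine (integrable_map_measure (m0.pow_const 2).aestronglyMeasurable mΦ.aemeasurable).2 ?_
    refine l2.congr (ae_of_all _ fun s => ?_)
    show F s 0 ^ 2 = (Φ s).1 0 ^ 2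
    rw [v1]

/-- **the mean number of points at the level `u`, for fields whose law is stationary** -/
theorem mean_count_F [IsProbabilityMeasure P] {F : S → E d → ℝ}
    (mF : ∀ y, Measurable fun s => F s y)
    (sF : ∀ s, ContDiff ℝ ∞ (F s)) (eF : ∀ s y, Lap (F s) y + F s y = 0)
    (st : ∀ x : E d, P.map (fun s y => F s (y + x)) = P.map (fun s y => F s y))
    (l2 : Integrable (fun s => F s 0 ^ 2) P) (I : Finset (E d)) (a : E d → ℝ)
    (v : E d) (hv : ‖v‖ ≤ 1) (u : ℝ) {T : ℝ} (hT : 0 < T) :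
    Measurable (fun s => (({t | t ∈ Set.Ico 0 T ∧
      ∑ x ∈ I, a x * F s (t • v + x) = u} : Set ℝ).encard : ℝ≥0∞)) ∧
    MeasurableSet {s | ∃ t : ℝ, ∑ x ∈ I, a x * F s (t • v + x) ≠ u} ∧
    ∫⁻ s in {s | ∃ t : ℝ, ∑ x ∈ I, a x * F s (t • v + x) ≠ u}, (({t | t ∈ Set.Ico 0 T ∧
      ∑ x ∈ I, a x * F s (t • v + x) = u} : Set ℝ).encard : ℝ≥0∞) ∂P ≤
      ENNReal.ofReal (T / Real.pi) * P {s | ∃ t : ℝ, ∑ x ∈ I, a x * F s (t • v + x) ≠ u} := by
  obtain ⟨Φ, mΦ, v1, hQ, hτ, W⟩ := canon mF sF eF st l2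
  obtain ⟨m1, m2, m3⟩ := mean_count hτ (lc_wave hτ W I a) v hv u hT
  have eL : ∀ s, Lv (lc I a (fun f : Sp d => f.1) (Φ s)) v u T = {t | t ∈ Set.Ico 0 T ∧
      ∑ x ∈ I, a x * F s (t • v + x) = u} := by
    intro s
    unfold Lv lc
    simp only [v1]
  have eA : Φ ⁻¹' (As (lc I a (fun f : Sp d => f.1)) v u) =
      {s | ∃ t : ℝ, ∑ x ∈ I, a x * F s (t • v + x) ≠ u} := by
    ext s
    show (∃ t : ℝ, lc I a (fun f : Sp d => f.1) (Φ s) (t • v) ≠ u) ↔ _
    unfold lc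
    simp only [v1]
    rfl
  refine ⟨?_, ?_, ?_⟩
  · have := m1.comp mΦ
    simp only [Function.comp_def, eL] at this
    exact this
  · rw [← eA]; exact mΦ m2
  · rw [Measure.restrict_map mΦ m2, lintegral_map m1 mΦ, Measure.map_apply mΦ m2, eA] at m3
    simp only [eL] at m3
    exact m3

end

end Pool.Agent.T6.H63.ZC
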