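import Pool.Agent.T6.H63.ZC.Jn

/-!
Project ZC (helper63), MP_4fa179_mp: asymptotics of sums of logarithms; zeros in cells.
-/

set_option autoImplicit false
open Filter Topology

namespace Pool.Agent.T6.H63.ZC

noncomputable section

/-- the sum of the weights -/
def Lw (R : ℕ) : ℝ := ∑ m ∈ Finset.range (R - 1), Real.log ((R : ℝ) / ((m : ℝ) + 2))

def Ww (R : ℕ) : ℝ := ∑ r ∈ Finset.range R, Real.log ((R : ℝ) / ((r : ℝ) + 1))

lemma Ww_succ (R : ℕ) : Ww (R + 1) = Ww R + (R : ℝ) * Real.log (1 + 1 / (R : ℝ)) := by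
  unfold Ww
  rw [Finset.sum_range_succ]
  rcases Nat.eq_zero_or_pos R with h | h
  · subst h; simp
  · have hR : (0 : ℝ) < R := by exact_mod_cast h
    have e1 : ((R + 1 : ℕ) : ℝ) / ((R : ℝ) + 1) = 1 := by
      push_cast; field_simp
    rw [e1, Real.log_one, add_zero]
    have e2 : ∀ r ∈ Finset.range R, Real.log (((R + 1 : ℕ) : ℝ) / ((r : ℝ) + 1)) =
        Real.log ((R : ℝ) / ((r : ℝ) + 1)) + Real.log (1 + 1 / (R : ℝ)) := by
      intro r _
      rw [← Real.log_mul (by positivity) (by positivity)]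
      congr 1
      push_cast; field_simp
    rw [Finset.sum_congr rfl e2, Finset.sum_add_distrib, Finset.sum_const, Finset.card_range,
      nsmul_eq_mul]

lemma Ww_eq (R : ℕ) : Ww R = ∑ r ∈ Finset.range R, (r : ℝ) * Real.log (1 + 1 / (r : ℝ)) := by
  induction R with
  | zero => simp [Ww]
  | succ R ih => rw [Ww_succ, ih, Finset.sum_range_succ]

lemma Ww_lim : Tendsto (fun R : ℕ => Ww R / R) atTop (𝓝 1) := by
  have h1 : Tendsto (fun r : ℕ => (r : ℝ) * Real.log (1 + 1 / (r : ℝ))) atTop (𝓝 1) :=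
    (Real.tendsto_mul_log_one_add_div_atTop 1).comp tendsto_natCast_atTop_atTop
  refine h1.cesaro.congr fun R => ?_
  rw [Ww_eq, div_eq_inv_mul]

lemma log_lim : Tendsto (fun R : ℕ => Real.log R / R) atTop (𝓝 0) := by
  have := (Real.tendsto_pow_log_div_mul_add_atTop 1 0 1 one_ne_zero).comp
    (tendsto_natCast_atTop_atTop (R := ℝ))
  refine this.congr fun R => ?_
  simp

lemma Lw_eq (R : ℕ) : Lw (R + 1) = Ww (R + 1) - Real.log ((R + 1 : ℕ) : ℝ) := by
  unfold Lw Ww
  rw [Nat.add_sub_cancel, Finset.sum_range_succ']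
  have : ∀ r ∈ Finset.range R, Real.log (((R + 1 : ℕ) : ℝ) / ((r : ℝ) + 2)) =
      Real.log (((R + 1 : ℕ) : ℝ) / (((r + 1 : ℕ) : ℝ) + 1)) := by
    intro r _
    congr 2
    push_cast; ring
  rw [Finset.sum_congr rfl this]
  simp

lemma Lw_lim : Tendsto (fun R : ℕ => Lw R / R) atTop (𝓝 1) := by
  have h := Ww_lim.sub log_lim
  rw [sub_zero] at h
  refine h.congr' ?_
  filter_upwards [eventually_ge_atTop 1] with R hR
  obtain ⟨R, rfl⟩ := Nat.exists_eq_add_of_le' hR
  rw [Lw_eq, sub_div]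

lemma Lw_nn (R : ℕ) : 0 ≤ Lw R := by
  refine Finset.sum_nonneg fun m hm => Real.log_nonneg ?_
  rw [Finset.mem_range] at hm
  rw [le_div_iff₀ (by positivity), one_mul]
  have : m + 2 ≤ R := by omega
  exact_mod_cast this

/-- error terms -/
lemma err_lim (A B D t δ : ℝ) (hδ : 0 < δ) : Tendsto (fun R : ℕ =>
    ((A + Real.log (|t| + R * δ + 1) + Real.log (1 + R * δ)) + B - D) / R) atTop (𝓝 0) := by
  have aff : ∀ c : ℝ, 0 < c → Tendsto (fun R : ℕ => Real.log (c + R * δ) / R) atTop (𝓝 0) := by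
    intro c hc
    have h1 : Tendsto (fun R : ℕ => c + R * δ) atTop atTop :=
      tendsto_atTop_add_const_left _ _
        ((tendsto_natCast_atTop_atTop (R := ℝ)).atTop_mul_const hδ)
    have h2 := (Real.tendsto_pow_log_div_mul_add_atTop (1 / δ) (-c / δ) 1
      (by positivity)).comp h1
    refine h2.congr fun R => ?_
    show Real.log (c + R * δ) ^ 1 / (1 / δ * (c + R * δ) + -c / δ) = _
    rw [pow_one]
    congr 1
    field_simp
    ring
  have h0 : Tendsto (fun R : ℕ => (A + B - D) / (R : ℝ)) atTop (𝓝 0) :=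
    tendsto_const_nhds.div_atTop tendsto_natCast_atTop_atTop
  have h := (h0.add (aff (|t| + 1) (by positivity))).add (aff 1 one_pos)
  simp only [add_zero] at h
  refine h.congr fun R => ?_
  rw [show |t| + 1 + (R : ℝ) * δ = |t| + R * δ + 1 by ring]
  ring

/-- the left end of a cell -/
def el (i : ℕ × Bool) : ℤ := if i.2 then (i.1 : ℤ) else -(i.1 : ℤ) - 1

lemma el_inj {i j : ℕ × Bool} (h : el i = el j) : i = j := by
  obtain ⟨m, b⟩ := i
  obtain ⟨n, c⟩ := j
  unfold el at h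
  cases b <;> cases c <;> simp at h ⊢ <;> omega

/-- the counting bound for one sample -/
lemma count {g : ℕ → ℝ → ℝ} {C : ℝ} (h : Fam g C) (u : ℝ) (hne : ∃ t, g 0 t ≠ u) {δ : ℝ}
    (hδ : 0 < δ) : ∃ e : ℕ → ℝ, Tendsto e atTop (𝓝 0) ∧ ∀ R : ℕ, 1 ≤ R →
      ∀ I : Finset (ℕ × Bool), (∀ i ∈ I, i.1 + 2 ≤ R ∧
        ∃ t ∈ Set.Ico ((el i : ℝ) * δ) (((el i : ℝ) + 1) * δ), g 0 t = u) →
      (∑ i ∈ I, Real.log ((R : ℝ) / ((i.1 : ℝ) + 2))) / R ≤ 2 / Real.pi * δ + e R := by
  classical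
  -- a point where the level is not attained
  obtain ⟨t0, ht0, hu⟩ : ∃ t0 ∈ Set.Icc 0 δ, g 0 t0 ≠ u := by
    by_contra hc
    push Not at hc
    obtain ⟨t1, ht1⟩ := hne
    have a1 : AnalyticOnNhd ℂ (H g 0) Set.univ :=
      (Hd h 0).differentiableOn.analyticOnNhd isOpen_univ
    have e := AnalyticOnNhd.eq_of_frequently_eq (z₀ := 0) a1
      (analyticOnNhd_const (v := (u : ℂ))) (by
        have t : Tendsto (fun n : ℕ => ((δ / ((n : ℝ) + 1) : ℝ) : ℂ)) atTop (𝓝[≠] (0 : ℂ)) := by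
          rw [tendsto_nhdsWithin_iff]
          constructor
          · have := (tendsto_one_div_add_atTop_nhds_zero_nat (𝕜 := ℝ)).const_mul δ
            rw [mul_zero] at this
            have := (Complex.continuous_ofReal.tendsto 0).comp this
            rw [Complex.ofReal_zero] at this
            refine this.congr fun n => ?_
            show ((δ * (1 / ((n : ℝ) + 1)) : ℝ) : ℂ) = _
            rw [mul_one_div]
          · refine Eventually.of_forall fun n => ?_
            show ((δ / ((n : ℝ) + 1) : ℝ) : ℂ) ≠ 0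
            have : (δ / ((n : ℝ) + 1) : ℝ) ≠ 0 := by positivity
            exact_mod_cast this
        refine t.frequently (Frequently.of_forall fun n => ?_)
        rw [Hr h 0, zero_add, hc _ ⟨by positivity, ?_⟩]
        rw [div_le_iff₀ (by positivity)]
        have : (0 : ℝ) ≤ n := Nat.cast_nonneg n
        nlinarith)
    have := congrFun e (t1 : ℂ)
    rw [Hr h 0, zero_add] at this
    exact ht1 (by exact_mod_cast this)
  refine ⟨_, err_lim (Real.log (C + |u| + 1)) 0 (Real.log |g 0 t0 - u|) t0 δ hδ, ?_⟩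
  intro R hR I hI
  have R0 : (0 : ℝ) < R := by exact_mod_cast hR
  choose! z hz1 hz2 using fun i (hi : i ∈ I) => (hI i hi).2
  have inj : Set.InjOn z I := by
    intro i hi j hj hij
    apply el_inj
    have i1 := hz1 i hi
    have j1 := hz1 j hj
    rw [← hij] at j1
    have fl : ∀ k : ℤ, z i ∈ Set.Ico ((k : ℝ) * δ) (((k : ℝ) + 1) * δ) → ⌊z i / δ⌋ = k := by
      intro k hk
      rw [Int.floor_eq_iff]
      exact ⟨by rw [le_div_iff₀ hδ]; exact hk.1, by rw [div_lt_iff₀ hδ]; exact hk.2⟩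
    rw [← fl _ i1, ← fl _ j1]
  have dist : ∀ i ∈ I, |z i - t0| ≤ ((i.1 : ℝ) + 2) * δ := by
    intro i hi
    have b := hz1 i hi
    have m0 : (0 : ℝ) ≤ i.1 := Nat.cast_nonneg _
    rw [abs_le]
    unfold el at b
    by_cases hb : i.2
    · simp only [hb, if_true, Int.cast_natCast] at b
      constructor <;> nlinarith [b.1, b.2, ht0.1, ht0.2]
    · simp only [hb] at b
      push_cast at b
      constructor <;> nlinarith [b.1, b.2, ht0.1, ht0.2]
  have J := fam_jensen h u t0 hu (ρ := R * δ) (by positivity) (Z := I.image z) (by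
    intro x hx
    rw [Finset.mem_image] at hx
    obtain ⟨i, hi, rfl⟩ := hx
    refine ⟨hz2 i hi, (dist i hi).trans ?_⟩
    have : ((i.1 : ℝ) + 2) ≤ R := by exact_mod_cast (hI i hi).1
    exact mul_le_mul_of_nonneg_right this hδ.le)
  rw [Finset.sum_image inj] at J
  have le : ∑ i ∈ I, Real.log ((R : ℝ) / ((i.1 : ℝ) + 2)) ≤
      ∑ i ∈ I, Real.log (R * δ / |z i - t0|) := by
    refine Finset.sum_le_sum fun i hi => ?_
    have p : 0 < |z i - t0| := by
      rw [abs_pos, sub_ne_zero]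
      intro e
      exact hu (e ▸ hz2 i hi)
    refine Real.log_le_log (by positivity) ?_
    rw [div_le_div_iff₀ (by positivity) p]
    calc (R : ℝ) * |z i - t0| ≤ R * (((i.1 : ℝ) + 2) * δ) :=
          mul_le_mul_of_nonneg_left (dist i hi) R0.le
      _ = R * δ * ((i.1 : ℝ) + 2) := by ring
  rw [div_le_iff₀ R0]
  have e : (2 / Real.pi * δ + ((Real.log (C + |u| + 1) + Real.log (|t0| + R * δ + 1) +
      Real.log (1 + R * δ)) + 0 - Real.log |g 0 t0 - u|) / R) * R =
      (Real.log (C + |u| + 1) + Real.log (|t0| + R * δ + 1) +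
      Real.log (1 + R * δ)) + 2 / Real.pi * (R * δ) - Real.log |g 0 t0 - u| := by
    field_simp
    ring
  rw [e]
  exact le.trans J

end

end Pool.Agent.T6.H63.ZC
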