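import Mathlib

/-!
Project ZC (helper63), MP_4fa179_mp: extension of a smooth function with well bounded derivatives
to an entire function of exponential type one.
-/

set_option autoImplicit false
open Filter Topology

namespace Pool.Agent.T6.H63.ZC

noncomputable section

/-- a function with its derivatives -/
structure Fam (g : ℕ → ℝ → ℝ) (C : ℝ) : Prop where
  der : ∀ k t, HasDerivAt (g k) (g (k + 1) t) t
  bd : ∀ k t, |g k t| ≤ C * ((k : ℝ) + 1) * (|t| + 1)

lemma Fam.C0 {g : ℕ → ℝ → ℝ} {C : ℝ} (h : Fam g C) : 0 ≤ C := by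
  have := h.bd 0 0
  simp at this
  exact (abs_nonneg _).trans this

/-- the terms -/
lemma hs (a : ℝ) : HasSum (fun k : ℕ => ((k : ℝ) + 1) * (a ^ k / (k.factorial : ℝ)))
    ((1 + a) * Real.exp a) := by
  have h1 : HasSum (fun k : ℕ => a ^ k / (k.factorial : ℝ)) (Real.exp a) := by
    rw [Real.exp_eq_exp_ℝ]
    exact NormedSpace.expSeries_div_hasSum_exp a
  have h2 : HasSum (fun k : ℕ => (k : ℝ) * (a ^ k / (k.factorial : ℝ))) (a * Real.exp a) := by
    rw [← hasSum_nat_add_iff' 1]
    simp only [Finset.range_one, Finset.sum_singleton, Nat.cast_zero, zero_mul, sub_zero]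
    refine (h1.mul_left a).congr_fun ?_ |> id
    intro k
    rw [Nat.factorial_succ]
    have : ((k.factorial : ℕ) : ℝ) ≠ 0 := by positivity
    have h3 : ((k : ℝ) + 1) ≠ 0 := by positivity
    push_cast
    field_simp
    ring
  have h3 := h2.add h1
  have e : a * Real.exp a + Real.exp a = (1 + a) * Real.exp a := by ring
  rw [e] at h3
  refine h3.congr_fun ?_ |> id
  intro k
  ring

lemma hs_nn {a : ℝ} (ha : 0 ≤ a) (k : ℕ) : 0 ≤ ((k : ℝ) + 1) * (a ^ k / (k.factorial : ℝ)) := by
  positivity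

/-- the Taylor series at `x` -/
def H (g : ℕ → ℝ → ℝ) (x : ℝ) (w : ℂ) : ℂ := ∑' k, (g k x : ℂ) * (w ^ k / (k.factorial : ℂ))

variable {g : ℕ → ℝ → ℝ} {C : ℝ}

lemma tb (h : Fam g C) (x : ℝ) {w : ℂ} {a : ℝ} (hw : ‖w‖ ≤ a) (k : ℕ) :
    ‖(g k x : ℂ) * (w ^ k / (k.factorial : ℂ))‖ ≤
      C * (|x| + 1) * (((k : ℝ) + 1) * (a ^ k / (k.factorial : ℝ))) := by
  have C0 := h.C0
  have a0 : 0 ≤ a := (norm_nonneg _).trans hw
  rw [norm_mul, norm_div, norm_pow, Complex.norm_real, Real.norm_eq_abs, Complex.norm_natCast]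
  calc |g k x| * (‖w‖ ^ k / (k.factorial : ℝ))
      ≤ (C * ((k : ℝ) + 1) * (|x| + 1)) * (a ^ k / (k.factorial : ℝ)) := by
        refine mul_le_mul (h.bd k x) ?_ (by positivity) (by positivity)
        exact div_le_div_of_nonneg_right (pow_le_pow_left₀ (norm_nonneg _) hw k) (by positivity)
    _ = _ := by ring

lemma Hb (h : Fam g C) (x : ℝ) (w : ℂ) :
    ‖H g x w‖ ≤ C * (|x| + 1) * ((1 + ‖w‖) * Real.exp ‖w‖) :=
  tsum_of_norm_bounded ((hs ‖w‖).mul_left _) fun k => tb h x le_rfl k

lemma Hd (h : Fam g C) (x : ℝ) : Differentiable ℂ (H g x) := by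
  intro w
  have := Complex.differentiableOn_tsum_of_summable_norm (U := Metric.ball (0 : ℂ) (‖w‖ + 1))
    (F := fun k (w : ℂ) => (g k x : ℂ) * (w ^ k / (k.factorial : ℂ)))
    (u := fun k => C * (|x| + 1) * (((k : ℝ) + 1) * ((‖w‖ + 1) ^ k / (k.factorial : ℝ))))
    ((hs (‖w‖ + 1)).mul_left _).summable (fun k => by fun_prop) Metric.isOpen_ball
    (fun k z hz => tb h x (by
      rw [Metric.mem_ball, dist_zero_right] at hz
      exact hz.le) k)
  exact (this w (by rw [Metric.mem_ball, dist_zero_right]; linarith)).differentiableAt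
    (Metric.isOpen_ball.mem_nhds (by rw [Metric.mem_ball, dist_zero_right]; linarith))

/-- Taylor polynomials, as functions of the centre -/
lemma tayd (h : Fam g C) (a : ℝ) (K : ℕ) (t : ℝ) :
    HasDerivAt (fun t => ∑ k ∈ Finset.range (K + 1), g k t * ((a - t) ^ k / (k.factorial : ℝ)))
      (g (K + 1) t * ((a - t) ^ K / (K.factorial : ℝ))) t := by
  induction K with
  | zero =>
    simp only [zero_add, Finset.range_one, Finset.sum_singleton, pow_zero, Nat.factorial_zero,
      Nat.cast_one, div_one, mul_one]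
    exact h.der 0 t
  | succ K ih =>
    have h1 : HasDerivAt (fun t : ℝ => a - t) (-1) t := by
      simpa using (hasDerivAt_id t).const_sub a
    have h2 := (h.der (K + 1) t).mul ((h1.pow (K + 1)).div_const ((K + 1).factorial : ℝ))
    have h3 := ih.add h2
    have e : (fun t => ∑ k ∈ Finset.range (K + 1 + 1),
        g k t * ((a - t) ^ k / (k.factorial : ℝ))) =
        (fun t => ∑ k ∈ Finset.range (K + 1), g k t * ((a - t) ^ k / (k.factorial : ℝ))) +
        (fun t => g (K + 1) t * ((a - t) ^ (K + 1) / ((K + 1).factorial : ℝ))) := by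
      funext t
      rw [Finset.sum_range_succ]; rfl
    rw [e]
    refine h3.congr_deriv ?_
    rw [Nat.factorial_succ]
    have : ((K.factorial : ℕ) : ℝ) ≠ 0 := by positivity
    have h3 : ((K : ℝ) + 1) ≠ 0 := by positivity
    simp only [Nat.add_sub_cancel, Pi.pow_apply]
    push_cast
    field_simp
    ring

lemma Hr (h : Fam g C) (x r : ℝ) : H g x r = (g 0 (x + r) : ℂ) := by
  have C0 := h.C0
  have sm : Summable fun k => (g k x : ℂ) * ((r : ℂ) ^ k / (k.factorial : ℂ)) :=
    Summable.of_norm_bounded (((hs ‖(r : ℂ)‖).mul_left (C * (|x| + 1))).summable)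
      fun k => tb h x le_rfl k
  have t1 := sm.hasSum.tendsto_sum_nat
  have t1' := t1.comp (tendsto_add_atTop_nat 1)
  refine tendsto_nhds_unique t1' ?_
  -- the remainder
  rw [tendsto_iff_norm_sub_tendsto_zero]
  have key : ∀ K : ℕ, ‖(∑ k ∈ Finset.range (K + 1), (g k x : ℂ) * ((r : ℂ) ^ k /
      (k.factorial : ℂ))) - (g 0 (x + r) : ℂ)‖ ≤
      (C * (|x| + |r| + 1) * |r|) * (2 * (((K : ℝ) + 1) * (|r| ^ K / (K.factorial : ℝ)))) := by
    intro K
    have e1 : (∑ k ∈ Finset.range (K + 1), (g k x : ℂ) * ((r : ℂ) ^ k /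
        (k.factorial : ℂ))) - (g 0 (x + r) : ℂ) =
        (((∑ k ∈ Finset.range (K + 1), g k x * ((x + r - x) ^ k / (k.factorial : ℝ))) -
          ∑ k ∈ Finset.range (K + 1), g k (x + r) *
            ((x + r - (x + r)) ^ k / (k.factorial : ℝ)) : ℝ) : ℂ) := by
      have e2 : ∑ k ∈ Finset.range (K + 1), g k (x + r) *
            ((x + r - (x + r)) ^ k / (k.factorial : ℝ)) = g 0 (x + r) := by
        rw [Finset.sum_eq_single 0]
        · simp
        · intro b _ hb
          rw [sub_self, zero_pow hb]; simp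
        · intro hb; simp at hb
      rw [e2]
      push_cast
      congr 1
      refine Finset.sum_congr rfl fun k _ => ?_
      congr 3
      ring
    rw [e1, Complex.norm_real]
    have mv := Convex.norm_image_sub_le_of_norm_hasDerivWithin_le (s := Set.uIcc x (x + r))
      (C := C * ((K : ℝ) + 2) * (|x| + |r| + 1) * (|r| ^ K / (K.factorial : ℝ)))
      (x := x + r) (y := x)
      (fun t _ => (tayd h (x + r) K t).hasDerivWithinAt) ?_ (convex_uIcc _ _)
      Set.right_mem_uIcc Set.left_mem_uIcc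
    · refine mv.trans ?_
      have e3 : ‖x - (x + r)‖ = |r| := by
        rw [Real.norm_eq_abs]
        rw [show x - (x + r) = -r by ring, abs_neg]
      rw [e3]
      have : (K : ℝ) + 2 ≤ 2 * ((K : ℝ) + 1) := by
        have : (0 : ℝ) ≤ K := Nat.cast_nonneg K
        linarith
      calc C * ((K : ℝ) + 2) * (|x| + |r| + 1) * (|r| ^ K / (K.factorial : ℝ)) * |r|
          ≤ C * (2 * ((K : ℝ) + 1)) * (|x| + |r| + 1) * (|r| ^ K / (K.factorial : ℝ)) * |r| := by
            gcongr
        _ = _ := by ring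
    · intro t ht
      have d1 : |x + r - t| ≤ |r| := by
        have := Set.abs_sub_right_of_mem_uIcc ht
        rwa [show x + r - x = r by ring] at this
      have d2 : |t| ≤ |x| + |r| := by
        have := Set.abs_sub_left_of_mem_uIcc ht
        rw [show x + r - x = r by ring] at this
        calc |t| = |x + (t - x)| := by congr 1; ring
          _ ≤ |x| + |t - x| := abs_add_le _ _
          _ ≤ |x| + |r| := by linarith
      rw [norm_mul, Real.norm_eq_abs, norm_div, norm_pow, Real.norm_eq_abs]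
      have b := h.bd (K + 1) t
      push_cast at b
      have e4 : ‖((K.factorial : ℕ) : ℝ)‖ = (K.factorial : ℝ) := by
        rw [Real.norm_eq_abs, abs_of_nonneg (by positivity)]
      rw [e4]
      refine mul_le_mul ?_ ?_ (by positivity) (by positivity)
      · refine b.trans ?_
        rw [show (K : ℝ) + 1 + 1 = K + 2 by ring]
        gcongr
      · exact div_le_div_of_nonneg_right (pow_le_pow_left₀ (abs_nonneg _) d1 K) (by positivity)
  refine squeeze_zero (fun K => norm_nonneg _) key ?_
  have t2 := ((hs |r|).summable.tendsto_atTop_zero.const_mul 2).const_mul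
    (C * (|x| + |r| + 1) * |r|)
  simpa using t2

/-- re-expansion -/
lemma He (h : Fam g C) (x : ℝ) (w : ℂ) : H g 0 (x + w) = H g x w := by
  have a1 : AnalyticOnNhd ℂ (fun w : ℂ => H g 0 (x + w)) Set.univ :=
    (((Hd h 0).comp (by fun_prop : Differentiable ℂ fun w : ℂ => (x : ℂ) + w)).differentiableOn).analyticOnNhd
      isOpen_univ
  have a2 : AnalyticOnNhd ℂ (H g x) Set.univ := (Hd h x).differentiableOn.analyticOnNhd isOpen_univ
  have e := AnalyticOnNhd.eq_of_frequently_eq (z₀ := 0) a1 a2 (by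
    have t : Tendsto (fun n : ℕ => ((1 / ((n : ℝ) + 1) : ℝ) : ℂ)) atTop (𝓝[≠] (0 : ℂ)) := by
      rw [tendsto_nhdsWithin_iff]
      constructor
      · have := tendsto_one_div_add_atTop_nhds_zero_nat (𝕜 := ℝ)
        have := (Complex.continuous_ofReal.tendsto 0).comp this
        rw [Complex.ofReal_zero] at this
        exact this
      · refine Eventually.of_forall fun n => ?_
        show ((1 / ((n : ℝ) + 1) : ℝ) : ℂ) ≠ 0
        have : (1 / ((n : ℝ) + 1) : ℝ) ≠ 0 := by positivity
        exact_mod_cast this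
    refine t.frequently (Frequently.of_forall fun n => ?_)
    rw [Hr h x]
    have := Hr h 0 (x + 1 / ((n : ℝ) + 1))
    rw [zero_add] at this
    rw [← this]
    congr 1
    push_cast; ring)
  exact congrFun e w

/-- the growth -/
lemma Hg (h : Fam g C) (z : ℂ) :
    ‖H g 0 z‖ ≤ C * (|z.re| + 1) * ((1 + |z.im|) * Real.exp |z.im|) := by
  have e : z = (z.re : ℂ) + (z.im : ℂ) * Complex.I := (Complex.re_add_im z).symm
  have n : ‖(z.im : ℂ) * Complex.I‖ = |z.im| := by
    rw [norm_mul, Complex.norm_I, mul_one, Complex.norm_real, Real.norm_eq_abs]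
  have := Hb h z.re ((z.im : ℂ) * Complex.I)
  rw [n, ← He h, ← e] at this
  exact this

end

end Pool.Agent.T6.H63.ZC
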