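import Pool.Agent.T6.H63.ZC.Jn
import Pool.Agent.T6.H63.GS.Wave

/-!
Project ZC (helper63), MP_4fa179_mp: stationary waves on a line.
-/

set_option autoImplicit false
open MeasureTheory Filter Topology
open scoped ContDiff ENNReal

namespace Pool.Agent.T6.H63.ZC

open Pool.Agent.Y139.SW Pool.Agent.T6.H63.GS

noncomputable section

section det

/-- a deterministic bound -/
lemma fam_of {g : ℕ → ℝ → ℝ} (der : ∀ k t, HasDerivAt (g k) (g (k + 1) t) t) {A : ℝ} (hA : 0 < A)
    (hI : ∀ k, ∫⁻ t : ℝ, ENNReal.ofReal ((1 + t ^ 2)⁻¹ * g k t ^ 2) ≤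
      ENNReal.ofReal (A ^ 2 * ((k : ℝ) + 1) ^ 2)) : Fam g (6 * A) := by
  have cg : ∀ k, Continuous (g k) := fun k =>
    continuous_iff_continuousAt.2 fun t => (der k t).continuousAt
  -- local square integrals
  have I2 : ∀ k (t : ℝ), ∫ r in t..(t + 1), g k r ^ 2 ≤
      2 * (|t| + 1) ^ 2 * (A ^ 2 * ((k : ℝ) + 1) ^ 2) := by
    intro k t
    rw [intervalIntegral.integral_of_le (by linarith)]
    have ii : IntegrableOn (fun r => g k r ^ 2) (Set.Ioc t (t + 1)) :=
      ((cg k).pow 2).integrableOn_Ioc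
    have e1 : ENNReal.ofReal (∫ r in Set.Ioc t (t + 1), g k r ^ 2) =
        ∫⁻ r in Set.Ioc t (t + 1), ENNReal.ofReal (g k r ^ 2) :=
      ofReal_integral_eq_lintegral_ofReal ii (ae_of_all _ fun r => sq_nonneg _)
    have e2 : ∫⁻ r in Set.Ioc t (t + 1), ENNReal.ofReal (g k r ^ 2) ≤
        ENNReal.ofReal (2 * (|t| + 1) ^ 2 * (A ^ 2 * ((k : ℝ) + 1) ^ 2)) := by
      calc ∫⁻ r in Set.Ioc t (t + 1), ENNReal.ofReal (g k r ^ 2)
          ≤ ∫⁻ r in Set.Ioc t (t + 1), ENNReal.ofReal (2 * (|t| + 1) ^ 2) *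
              ENNReal.ofReal ((1 + r ^ 2)⁻¹ * g k r ^ 2) := by
            refine setLIntegral_mono' measurableSet_Ioc fun r hr => ?_
            rw [← ENNReal.ofReal_mul (by positivity)]
            refine ENNReal.ofReal_le_ofReal ?_
            have r1 : |r| ≤ |t| + 1 := by
              rw [abs_le]
              constructor
              · have := neg_abs_le t; linarith [hr.1]
              · have := le_abs_self t; linarith [hr.2]
            have r2 : 1 + r ^ 2 ≤ 2 * (|t| + 1) ^ 2 := by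
              have := abs_nonneg t
              have : r ^ 2 ≤ (|t| + 1) ^ 2 := by
                rw [← sq_abs r]
                exact pow_le_pow_left₀ (abs_nonneg _) r1 2
              nlinarith
            have r3 : 0 < 1 + r ^ 2 := by positivity
            rw [← mul_assoc, ← div_eq_mul_inv]
            have : 1 ≤ 2 * (|t| + 1) ^ 2 / (1 + r ^ 2) := by
              rw [le_div_iff₀ r3, one_mul]; exact r2
            nlinarith [sq_nonneg (g k r)]
        _ = ENNReal.ofReal (2 * (|t| + 1) ^ 2) *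
              ∫⁻ r in Set.Ioc t (t + 1), ENNReal.ofReal ((1 + r ^ 2)⁻¹ * g k r ^ 2) :=
            lintegral_const_mul' _ _ ENNReal.ofReal_ne_top
        _ ≤ ENNReal.ofReal (2 * (|t| + 1) ^ 2) *
              ENNReal.ofReal (A ^ 2 * ((k : ℝ) + 1) ^ 2) := by
            gcongr
            exact (setLIntegral_le_lintegral _ _).trans (hI k)
        _ = _ := by rw [← ENNReal.ofReal_mul (by positivity)]
    rw [← e1] at e2
    exact (ENNReal.ofReal_le_ofReal_iff (by positivity)).1 e2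
  have I1 : ∀ k (t : ℝ), ∫ r in t..(t + 1), |g k r| ≤ 2 * A * (|t| + 1) * ((k : ℝ) + 1) := by
    intro k t
    obtain ⟨a, ha⟩ : ∃ a, a = 2 * A * (|t| + 1) * ((k : ℝ) + 1) := ⟨_, rfl⟩
    have a0 : 0 < a := by rw [ha]; positivity
    have p : ∀ x : ℝ, |x| ≤ a / 2 + (1 / (2 * a)) * x ^ 2 := by
      intro x
      rw [← sq_abs x]
      have : a / 2 + 1 / (2 * a) * |x| ^ 2 - |x| = (1 / (2 * a)) * (a - |x|) ^ 2 := by
        field_simp; ring
      have h2 : 0 ≤ (1 / (2 * a)) * (a - |x|) ^ 2 := by positivity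
      linarith
    calc ∫ r in t..(t + 1), |g k r|
        ≤ ∫ r in t..(t + 1), (a / 2 + (1 / (2 * a)) * g k r ^ 2) :=
          intervalIntegral.integral_mono_on (by linarith) ((cg k).abs.intervalIntegrable _ _)
            ((continuous_const.add (continuous_const.mul ((cg k).pow 2))).intervalIntegrable _ _)
            fun r _ => p _
      _ = a / 2 + (1 / (2 * a)) * ∫ r in t..(t + 1), g k r ^ 2 := by
          have ii : IntervalIntegrable (fun r => (1 / (2 * a)) * g k r ^ 2) volume t (t + 1) :=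
            (continuous_const.mul ((cg k).pow 2)).intervalIntegrable _ _
          rw [intervalIntegral.integral_add intervalIntegrable_const ii,
            intervalIntegral.integral_const_mul, intervalIntegral.integral_const]
          simp
      _ ≤ a / 2 + (1 / (2 * a)) * a ^ 2 := by
          have : ∫ r in t..(t + 1), g k r ^ 2 ≤ a ^ 2 := by
            refine (I2 k t).trans ?_
            rw [ha]
            have : 0 ≤ (|t| + 1) ^ 2 * (A ^ 2 * ((k : ℝ) + 1) ^ 2) := by positivity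
            nlinarith
          gcongr
      _ = a := by field_simp; ring
      _ = _ := ha
  refine ⟨der, fun k t => ?_⟩
  obtain ⟨J, hJ⟩ : ∃ J, J = ∫ r in t..(t + 1), |g (k + 1) r| := ⟨_, rfl⟩
  have d1 : ∀ r ∈ Set.Icc t (t + 1), |g k t| ≤ |g k r| + J := by
    intro r hr
    have e : g k r - g k t = ∫ x in t..r, g (k + 1) x :=
      (intervalIntegral.integral_eq_sub_of_hasDerivAt (fun x _ => der k x)
        ((cg (k + 1)).intervalIntegrable _ _)).symm
    have b : |g k r - g k t| ≤ J := by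
      rw [e, hJ]
      refine (intervalIntegral.abs_integral_le_integral_abs hr.1).trans ?_
      exact intervalIntegral.integral_mono_interval le_rfl hr.1 hr.2
        (ae_of_all _ fun x => abs_nonneg _) ((cg (k + 1)).abs.intervalIntegrable _ _)
    have := abs_sub_abs_le_abs_sub (g k t) (g k r)
    rw [abs_sub_comm] at this
    linarith
  have d2 : |g k t| ≤ (∫ r in t..(t + 1), |g k r|) + J := by
    have ic : ∀ c : ℝ, IntervalIntegrable (fun _ : ℝ => c) volume t (t + 1) :=
      fun c => intervalIntegrable_const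
    have m := intervalIntegral.integral_mono_on (μ := volume) (a := t) (b := t + 1)
      (by linarith) (f := fun _ => |g k t|) (g := fun r => |g k r| + J) (ic _)
      (((cg k).abs.add continuous_const).intervalIntegrable _ _) d1
    rw [intervalIntegral.integral_add ((cg k).abs.intervalIntegrable _ _) (ic _),
      intervalIntegral.integral_const, intervalIntegral.integral_const] at m
    simpa using m
  have j1 := I1 k t
  have j2 := I1 (k + 1) t
  rw [← hJ] at j2
  push_cast at j2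
  have : 2 * A * (|t| + 1) * ((k : ℝ) + 1 + 1) ≤ 2 * (2 * A * (|t| + 1) * ((k : ℝ) + 1)) := by
    have : (0 : ℝ) ≤ 2 * A * (|t| + 1) * k := by positivity
    nlinarith
  calc |g k t| ≤ 2 * A * (|t| + 1) * ((k : ℝ) + 1) + 2 * (2 * A * (|t| + 1) * ((k : ℝ) + 1)) := by
        linarith
    _ = 6 * A * ((k : ℝ) + 1) * (|t| + 1) := by ring

end det

variable {d : ℕ} {S : Type*} [MeasurableSpace S] {P : Measure S} {τ : E d → S → S}

/-- the derivative in the direction `v` -/
def De (v : E d) (f : E d → ℝ) (y : E d) : ℝ := fderiv ℝ f y v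

lemma De_eq (v : E d) (f : E d → ℝ) (y : E d) : De v f y = ∑ i, v i * D i f y := by
  have hv : v = ∑ i, v i • (EuclideanSpace.single i (1 : ℝ) : E d) := by
    ext j
    simp [Finset.sum_apply, Pi.single_apply]
  unfold De D
  conv_lhs => rw [hv]
  rw [map_sum]
  exact Finset.sum_congr rfl fun i _ => by rw [map_smul, smul_eq_mul]

/-- linear combinations of waves -/
lemma lin_wave {ι : Type*} [Fintype ι] (c : ι → ℝ) {G : ι → S → E d → ℝ}
    (W : ∀ i, Wave P τ (G i)) : Wave P τ (fun s y => ∑ i, c i * G i s y) := by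
  have sf : SF τ (fun s y => ∑ i, c i * G i s y) := by
    refine ⟨fun y => ?_, fun s => ?_, fun x s y => ?_⟩
    · exact Finset.measurable_fun_sum _ fun i _ => measurable_const.mul ((W i).sf.meas _)
    · exact ContDiff.sum fun i _ => contDiff_const.mul ((W i).sf.smooth s)
    · exact Finset.sum_congr rfl fun i _ => by rw [(W i).sf.cov]
  refine ⟨sf, fun s y => ?_, ?_⟩
  · have e1 : ∀ j, D j (D j (fun y => ∑ i, c i * G i s y)) y =
        ∑ i, c i * D j (D j (G i s)) y := by
      intro j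
      have : D j (fun y => ∑ i, c i * G i s y) = fun y => ∑ i, c i * D j (G i s) y :=
        funext fun y => D_lin Finset.univ c (fun i => (W i).sf.smooth s) j y
      rw [this, D_lin Finset.univ c (f := fun i => D j (G i s))
        (fun i => D_sm ((W i).sf.smooth s) j)]
    unfold Lap
    simp only [e1]
    rw [Finset.sum_comm]
    simp only [← Finset.mul_sum]
    have e2 : ∀ i, ∑ j, D j (D j (G i s)) y = -G i s y := fun i => (W i).eq s y
    simp only [e2]
    rw [← Finset.sum_neg_distrib]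
    exact Finset.sum_congr rfl fun i _ => by ring
  · have i1 : Integrable (fun s => (Fintype.card ι : ℝ) * ∑ i, (c i * G i s 0) ^ 2) P := by
      refine Integrable.const_mul (integrable_finsetSum _ fun i _ => ?_) _
      refine ((W i).l2.const_mul (c i ^ 2)).congr (ae_of_all _ fun s => ?_)
      show c i ^ 2 * G i s 0 ^ 2 = (c i * G i s 0) ^ 2
      ring
    refine Integrable.mono' i1 ((sf.meas 0).pow_const 2).aestronglyMeasurable
      (ae_of_all _ fun s => ?_)
    rw [Real.norm_eq_abs, abs_of_nonneg (sq_nonneg _)]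
    exact sq_sum_le_card_mul_sum_sq

/-- Bernstein's inequality in `L²` -/
lemma De_wave [IsProbabilityMeasure P] (hτ : ∀ x, MeasurePreserving (τ x) P P)
    {G : S → E d → ℝ} (W : Wave P τ G) (v : E d) (hv : ‖v‖ ≤ 1) :
    Wave P τ (fun s => De v (G s)) ∧ ∫ s, De v (G s) 0 ^ 2 ∂P ≤ ∫ s, G s 0 ^ 2 ∂P := by
  have e : (fun s => De v (G s)) = fun s y => ∑ i, v i * D i (G s) y := by
    funext s y; exact De_eq v (G s) y
  have W1 := fun i => W.der hτ i
  have W2 : Wave P τ (fun s => De v (G s)) := by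
    rw [e]; exact lin_wave v W1
  refine ⟨W2, ?_⟩
  have ie : Integrable (fun s => ∑ i, D i (G s) 0 ^ 2) P :=
    integrable_finsetSum _ fun i _ => (W1 i).l2
  have le : ∫ s, De v (G s) 0 ^ 2 ∂P ≤ ∫ s, ∑ i, D i (G s) 0 ^ 2 ∂P := by
    refine integral_mono W2.l2 ie fun s => ?_
    show De v (G s) 0 ^ 2 ≤ ∑ i, D i (G s) 0 ^ 2
    rw [De_eq]
    have cs := Finset.sum_mul_sq_le_sq_mul_sq Finset.univ (fun i => v i) (fun i => D i (G s) 0)
    have hv2 : ∑ i, v i ^ 2 ≤ 1 := by
      have : ‖v‖ ^ 2 = ∑ i, v i ^ 2 := by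
        rw [EuclideanSpace.norm_sq_eq]
        exact Finset.sum_congr rfl fun i _ => by rw [Real.norm_eq_abs, sq_abs]
      rw [← this]
      exact pow_le_one₀ (norm_nonneg _) hv
    refine cs.trans ?_
    exact mul_le_of_le_one_left (Finset.sum_nonneg fun i _ => sq_nonneg _) hv2
  refine le.trans (le_of_eq ?_)
  rw [integral_finsetSum _ fun i _ => (W1 i).l2]
  exact W.energy hτ

/-- the iterated derivatives -/
def It (v : E d) (k : ℕ) (f : E d → ℝ) : E d → ℝ := (De v)^[k] f

lemma It_wave [IsProbabilityMeasure P] (hτ : ∀ x, MeasurePreserving (τ x) P P)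
    {G : S → E d → ℝ} (W : Wave P τ G) (v : E d) (hv : ‖v‖ ≤ 1) (k : ℕ) :
    Wave P τ (fun s => It v k (G s)) ∧ ∫ s, It v k (G s) 0 ^ 2 ∂P ≤ ∫ s, G s 0 ^ 2 ∂P := by
  induction k with
  | zero => exact ⟨W, le_rfl⟩
  | succ k ih =>
    have h := De_wave hτ ih.1 v hv
    have e : ∀ s, It v (k + 1) (G s) = De v (It v k (G s)) := fun s =>
      Function.iterate_succ_apply' _ _ _
    simp only [e]
    exact ⟨h.1, h.2.trans ih.2⟩

/-- the wave on the line in the direction `v` -/
def gl (v : E d) (f : E d → ℝ) (k : ℕ) (t : ℝ) : ℝ := It v k f (t • v)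

lemma gl_der {v : E d} {f : E d → ℝ} (hf : ∀ k, ContDiff ℝ ∞ (It v k f)) (k : ℕ) (t : ℝ) :
    HasDerivAt (gl v f k) (gl v f (k + 1) t) t := by
  have h1 : HasDerivAt (fun t : ℝ => t • v) ((1 : ℝ) • v) t := (hasDerivAt_id t).smul_const v
  have h2 := (sdiff (hf k) (t • v)).hasFDerivAt.comp_hasDerivAt t h1
  rw [one_smul] at h2
  have e : gl v f (k + 1) t = fderiv ℝ (It v k f) (t • v) v := by
    show It v (k + 1) f (t • v) = _
    unfold It
    rw [Function.iterate_succ_apply']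
    rfl
  rw [e]
  exact h2

/-- Fubini on the line -/
lemma line_ton [IsProbabilityMeasure P] (hτ : ∀ x, MeasurePreserving (τ x) P P)
    {G : S → E d → ℝ} (h : SF τ G) (v : E d) :
    ∫⁻ s, (∫⁻ t : ℝ, ENNReal.ofReal ((1 + t ^ 2)⁻¹ * G s (t • v) ^ 2)) ∂P =
      (∫⁻ t : ℝ, ENNReal.ofReal ((1 + t ^ 2)⁻¹)) * ∫⁻ s, ENNReal.ofReal (G s 0 ^ 2) ∂P := by
  have mj : Measurable fun p : S × ℝ => G p.1 (p.2 • v) :=
    (joint h).comp ((measurable_snd.smul_const v).prodMk measurable_fst)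
  have mψ : Measurable fun t : ℝ => (1 + t ^ 2)⁻¹ := by fun_prop
  have mm : Measurable (Function.uncurry fun (s : S) (t : ℝ) =>
      ENNReal.ofReal ((1 + t ^ 2)⁻¹ * G s (t • v) ^ 2)) :=
    ((mψ.comp measurable_snd).mul (mj.pow_const 2)).ennreal_ofReal
  rw [lintegral_lintegral_swap mm.aemeasurable]
  have e : ∀ t : ℝ, ∫⁻ s, ENNReal.ofReal ((1 + t ^ 2)⁻¹ * G s (t • v) ^ 2) ∂P =
      ENNReal.ofReal ((1 + t ^ 2)⁻¹) * ∫⁻ s, ENNReal.ofReal (G s 0 ^ 2) ∂P := by
    intro t
    have p0 : 0 ≤ (1 + t ^ 2)⁻¹ := by positivity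
    simp only [ENNReal.ofReal_mul p0]
    rw [lintegral_const_mul _ ((h.meas _).pow_const 2).ennreal_ofReal]
    rw [st_lint hτ h _ (k := fun x => ENNReal.ofReal (x ^ 2))
      (measurable_id.pow_const 2).ennreal_ofReal]
  simp only [e]
  exact lintegral_mul_const _ mψ.ennreal_ofReal

/-- almost every sample extends to an entire function of exponential type one along the line -/
theorem ae_fam [IsProbabilityMeasure P] (hτ : ∀ x, MeasurePreserving (τ x) P P)
    {G : S → E d → ℝ} (W : Wave P τ G) (v : E d) (hv : ‖v‖ ≤ 1) :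
    ∀ᵐ s ∂P, ∃ C, Fam (gl v (G s)) C := by
  have Wk := fun k => It_wave hτ W v hv k
  obtain ⟨M, hM⟩ : ∃ M : ℝ, M = ∫ s, G s 0 ^ 2 ∂P := ⟨_, rfl⟩
  obtain ⟨q, hq⟩ : ∃ q : ℕ → S → ℝ≥0∞, q = fun k s =>
    ∫⁻ t : ℝ, ENNReal.ofReal ((1 + t ^ 2)⁻¹ * gl v (G s) k t ^ 2) := ⟨_, rfl⟩
  have fin1 : ∫⁻ t : ℝ, ENNReal.ofReal ((1 + t ^ 2)⁻¹) ≠ ⊤ :=
    integrable_inv_one_add_sq.lintegral_lt_top.ne
  have mq : ∀ k, Measurable (q k) := by
    intro k
    rw [hq]
    have mj : Measurable fun p : S × ℝ => It v k (G p.1) (p.2 • v) :=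
      (joint (Wk k).1.sf).comp ((measurable_snd.smul_const v).prodMk measurable_fst)
    have mψ : Measurable fun t : ℝ => (1 + t ^ 2)⁻¹ := by fun_prop
    exact (((mψ.comp measurable_snd).mul (mj.pow_const 2)).ennreal_ofReal).lintegral_prod_right'
  have Eq : ∀ k, ∫⁻ s, q k s ∂P ≤ (∫⁻ t : ℝ, ENNReal.ofReal ((1 + t ^ 2)⁻¹)) *
      ENNReal.ofReal M := by
    intro k
    have := line_ton hτ (Wk k).1.sf v
    rw [hq]
    refine this.le.trans ?_
    gcongr
    rw [← ofReal_integral_eq_lintegral_ofReal (Wk k).1.l2 (ae_of_all _ fun s => sq_nonneg _)]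
    exact ENNReal.ofReal_le_ofReal ((Wk k).2.trans hM.ge)
  obtain ⟨w, hw⟩ : ∃ w : ℕ → ℝ, w = fun k : ℕ => 1 / ((k : ℝ) + 1) ^ (2 : ℕ) :=
    ⟨fun k : ℕ => 1 / ((k : ℝ) + 1) ^ (2 : ℕ), rfl⟩
  have w0 : ∀ k, 0 < w k := fun k => by rw [hw]; positivity
  have sw : Summable w := by
    rw [hw]
    have := (summable_nat_add_iff 1).2 (Real.summable_one_div_nat_pow.2 one_lt_two)
    refine this.congr fun k => ?_
    push_cast; rfl
  have fin2 : ∑' k, ENNReal.ofReal (w k) ≠ ⊤ := by
    rw [← ENNReal.ofReal_tsum_of_nonneg (fun k => (w0 k).le) sw]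
    exact ENNReal.ofReal_ne_top
  have fin3 : ∫⁻ s, ∑' k, ENNReal.ofReal (w k) * q k s ∂P ≠ ⊤ := by
    rw [lintegral_tsum fun k => ((mq k).const_mul _).aemeasurable]
    have : ∀ k, ∫⁻ s, ENNReal.ofReal (w k) * q k s ∂P ≤ ENNReal.ofReal (w k) *
        ((∫⁻ t : ℝ, ENNReal.ofReal ((1 + t ^ 2)⁻¹)) * ENNReal.ofReal M) := by
      intro k
      rw [lintegral_const_mul _ (mq k)]
      gcongr
      exact Eq k
    refine ne_top_of_le_ne_top ?_ (ENNReal.tsum_le_tsum this)
    rw [ENNReal.tsum_mul_right]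
    exact ENNReal.mul_ne_top fin2 (ENNReal.mul_ne_top fin1 ENNReal.ofReal_ne_top)
  have ms : Measurable fun s => ∑' k, ENNReal.ofReal (w k) * q k s :=
    Measurable.ennreal_tsum fun k => (mq k).const_mul _
  filter_upwards [ae_lt_top ms fin3] with s hs
  obtain ⟨Q, hQ⟩ : ∃ Q : ℝ, Q = (∑' k, ENNReal.ofReal (w k) * q k s).toReal := ⟨_, rfl⟩
  have hQ' : ∑' k, ENNReal.ofReal (w k) * q k s = ENNReal.ofReal Q := by
    rw [hQ, ENNReal.ofReal_toReal hs.ne]
  have Q0 : 0 ≤ Q := hQ ▸ ENNReal.toReal_nonneg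
  refine ⟨6 * (Real.sqrt (Q + 1)), fam_of (gl_der fun k => (Wk k).1.sf.smooth s)
    (Real.sqrt_pos.2 (by linarith)) fun k => ?_⟩
  rw [Real.sq_sqrt (by linarith)]
  have h1 : ENNReal.ofReal (w k) * q k s ≤ ENNReal.ofReal (Q + 1) :=
    (ENNReal.le_tsum k).trans (hQ'.le.trans (ENNReal.ofReal_le_ofReal (by linarith)))
  have h2 : q k s = ENNReal.ofReal (((k : ℝ) + 1) ^ 2) * (ENNReal.ofReal (w k) * q k s) := by
    rw [← mul_assoc, ← ENNReal.ofReal_mul (by positivity)]
    have : ((k : ℝ) + 1) ^ 2 * w k = 1 := by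
      rw [hw]; field_simp
    rw [this, ENNReal.ofReal_one, one_mul]
  have h3 : q k s ≤ ENNReal.ofReal ((Q + 1) * ((k : ℝ) + 1) ^ 2) := by
    rw [h2, mul_comm (Q + 1), ENNReal.ofReal_mul (by positivity)]
    gcongr
  rw [hq] at h3
  exact h3

end

end Pool.Agent.T6.H63.ZC
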