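import Pool.Agent.T6.H63.ZC.An
import Pool.Agent.T6.H63.ZC.Wv

/-!
Project ZC (helper63), MP_4fa179_mp: the probability that a short interval contains a point at the
level `u`.
-/

set_option autoImplicit false
open MeasureTheory Filter Topology
open scoped ContDiff ENNReal

namespace Pool.Agent.T6.H63.ZC

open Pool.Agent.Y139.SW Pool.Agent.T6.H63.GS

noncomputable section

section meas

variable {S : Type*} [MeasurableSpace S]

/-- the event that the level is attained in a compact interval -/
lemma meas_Icc {F : S → ℝ → ℝ} (cF : ∀ s, Continuous (F s)) (mF : ∀ t, Measurable fun s => F s t)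
    (u a c : ℝ) (h : a ≤ c) : MeasurableSet {s | ∃ t ∈ Set.Icc a c, F s t = u} := by
  have e : {s | ∃ t ∈ Set.Icc a c, F s t = u} = ⋂ m : ℕ, ⋃ q : {q : ℚ // (q : ℝ) ∈ Set.Icc (0 : ℝ) 1},
      {s | |F s (a + (q : ℚ) * (c - a)) - u| < 1 / ((m : ℝ) + 1)} := by
    ext s
    simp only [Set.mem_iInter, Set.mem_iUnion]
    constructor
    · rintro ⟨t, ht, rfl⟩ m
      have hm : (0 : ℝ) < 1 / ((m : ℝ) + 1) := by positivity
      by_cases hac : a = c
      · refine ⟨⟨0, by simp⟩, ?_⟩
        show |F s (a + ((0 : ℚ) : ℝ) * (c - a)) - F s t| < _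
        have : t = a := le_antisymm (hac ▸ ht.2) ht.1
        rw [this]
        simpa using hm
      · have hac' : 0 < c - a := by
          have := lt_of_le_of_ne h hac
          linarith
        -- the parameter of `t`
        obtain ⟨r, hr⟩ : ∃ r, r = (t - a) / (c - a) := ⟨_, rfl⟩
        have r0 : 0 ≤ r := by rw [hr]; exact div_nonneg (by linarith [ht.1]) hac'.le
        have r1 : r ≤ 1 := by rw [hr, div_le_one hac']; linarith [ht.2]
        have er : a + r * (c - a) = t := by rw [hr]; field_simp; ring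
        have cr : ContinuousAt (fun r : ℝ => F s (a + r * (c - a))) r :=
          ((cF s).comp (by fun_prop)).continuousAt
        obtain ⟨η, η0, hη⟩ := Metric.continuousAt_iff.1 cr _ hm
        -- a rational parameter close to `r`
        obtain ⟨q, hq0, hq1, hq⟩ : ∃ q : ℚ, (0 : ℝ) ≤ q ∧ (q : ℝ) ≤ 1 ∧ |(q : ℝ) - r| < η := by
          rcases lt_or_ge r 1 with hlt | hge
          · obtain ⟨q, q1, q2⟩ := exists_rat_btwn (lt_min hlt (by linarith : r < r + η))
            exact ⟨q, by linarith, (q2.trans_le (min_le_left _ _)).le, by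
              rw [abs_of_pos (by linarith)]
              linarith [q2.trans_le (min_le_right _ _)]⟩
          · have : r = 1 := le_antisymm r1 hge
            exact ⟨1, by norm_num, by norm_num, by rw [this]; simpa using η0⟩
        refine ⟨⟨q, hq0, hq1⟩, ?_⟩
        have := hη (x := (q : ℝ)) (by rw [Real.dist_eq]; exact hq)
        rw [Real.dist_eq, er] at this
        exact this
    · intro hs
      obtain ⟨t, ht, hmin⟩ := isCompact_Icc.exists_isMinOn (Set.nonempty_Icc.2 h)
        (f := fun t => |F s t - u|) (((cF s).sub continuous_const).abs.continuousOn)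
      refine ⟨t, ht, ?_⟩
      by_contra hne
      have p : 0 < |F s t - u| := abs_pos.2 (sub_ne_zero.2 hne)
      obtain ⟨m, hm⟩ := exists_nat_one_div_lt p
      obtain ⟨⟨q, hq⟩, hqm⟩ := hs m
      have hq' : a + (q : ℝ) * (c - a) ∈ Set.Icc a c := by
        constructor
        · have := mul_nonneg hq.1 (by linarith : 0 ≤ c - a)
          linarith
        · have := mul_le_of_le_one_left (by linarith : 0 ≤ c - a) hq.2
          linarith
      have h1 : |F s t - u| ≤ |F s (a + (q : ℝ) * (c - a)) - u| := hmin hq'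
      have h2 : |F s (a + (q : ℝ) * (c - a)) - u| < 1 / ((m : ℝ) + 1) := hqm
      linarith
  rw [e]
  refine MeasurableSet.iInter fun m => MeasurableSet.iUnion fun q => ?_
  exact measurableSet_lt (((mF _).sub measurable_const).abs) measurable_const

lemma meas_Ico {F : S → ℝ → ℝ} (cF : ∀ s, Continuous (F s)) (mF : ∀ t, Measurable fun s => F s t)
    (u a c : ℝ) : MeasurableSet {s | ∃ t ∈ Set.Ico a c, F s t = u} := by
  rcases lt_or_ge a c with h | h
  · have e : {s | ∃ t ∈ Set.Ico a c, F s t = u} =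
        ⋃ n : ℕ, {s | ∃ t ∈ Set.Icc a (c - (c - a) / ((n : ℝ) + 1)), F s t = u} := by
      ext s
      simp only [Set.mem_iUnion]
      constructor
      · rintro ⟨t, ht, htu⟩
        have p : 0 < (c - t) / (c - a) := div_pos (by linarith [ht.2]) (by linarith)
        obtain ⟨n, hn⟩ := exists_nat_one_div_lt p
        refine ⟨n, t, ⟨ht.1, ?_⟩, htu⟩
        rw [lt_div_iff₀ (by linarith)] at hn
        have : (c - a) / ((n : ℝ) + 1) = 1 / ((n : ℝ) + 1) * (c - a) := by ring
        rw [this]
        linarith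
      · rintro ⟨n, t, ht, htu⟩
        refine ⟨t, ⟨ht.1, lt_of_le_of_lt ht.2 ?_⟩, htu⟩
        have : 0 < (c - a) / ((n : ℝ) + 1) := div_pos (by linarith) (by positivity)
        linarith
    rw [e]
    refine MeasurableSet.iUnion fun n => meas_Icc cF mF u _ _ ?_
    have : (c - a) / ((n : ℝ) + 1) ≤ c - a :=
      div_le_self (by linarith) (by
        have : (0 : ℝ) ≤ n := Nat.cast_nonneg n
        linarith)
    linarith
  · rw [Set.Ico_eq_empty (by linarith)]
    simp

lemma meas_ne {F : S → ℝ → ℝ} (cF : ∀ s, Continuous (F s)) (mF : ∀ t, Measurable fun s => F s t)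
    (u : ℝ) : MeasurableSet {s | ∃ t, F s t ≠ u} := by
  have e : {s | ∃ t, F s t ≠ u} = ⋃ q : ℚ, {s | F s (q : ℝ) ≠ u} := by
    ext s
    simp only [Set.mem_iUnion]
    constructor
    · rintro ⟨t, ht⟩
      by_contra hc
      have hc' : ∀ q : ℚ, F s (q : ℝ) = u := fun q => by
        by_contra h
        exact hc ⟨q, h⟩
      have : F s = fun _ => u := by
        refine Rat.denseRange_cast.equalizer (cF s) continuous_const ?_
        funext q
        exact hc' q
      exact ht (congrFun this t)
    · rintro ⟨q, hq⟩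
      exact ⟨_, hq⟩
  rw [e]
  refine MeasurableSet.iUnion fun q => ?_
  exact ((mF _) (measurableSet_singleton u)).compl

end meas

variable {d : ℕ} {S : Type*} [MeasurableSpace S] {P : Measure S} {τ : E d → S → S}

/-- the event that the level `u` is attained on the part `[a, b)` of the line -/
def Zs (G : S → E d → ℝ) (v : E d) (u a b : ℝ) : Set S :=
  {s | ∃ t ∈ Set.Ico a b, G s (t • v) = u}

/-- the event that the sample is not constant `u` on the line -/
def As (G : S → E d → ℝ) (v : E d) (u : ℝ) : Set S := {s | ∃ t : ℝ, G s (t • v) ≠ u}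

lemma meas_Zs {G : S → E d → ℝ} (h : SF τ G) (v : E d) (u a b : ℝ) :
    MeasurableSet (Zs G v u a b) :=
  meas_Ico (F := fun s t => G s (t • v))
    (fun s => (h.smooth s).continuous.comp (continuous_id.smul continuous_const))
    (fun t => h.meas _) u a b

lemma meas_As {G : S → E d → ℝ} (h : SF τ G) (v : E d) (u : ℝ) : MeasurableSet (As G v u) :=
  meas_ne (F := fun s t => G s (t • v))
    (fun s => (h.smooth s).continuous.comp (continuous_id.smul continuous_const))
    (fun t => h.meas _) u

lemma shift_ZA (hτ : ∀ x, MeasurePreserving (τ x) P P) {G : S → E d → ℝ} (h : SF τ G) (v : E d)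
    (u a b c : ℝ) : P (Zs G v u (a + c) (b + c) ∩ As G v u) = P (Zs G v u a b ∩ As G v u) := by
  have e : τ (c • v) ⁻¹' (Zs G v u a b ∩ As G v u) = Zs G v u (a + c) (b + c) ∩ As G v u := by
    ext s
    constructor
    · rintro ⟨⟨t, ht, h1⟩, ⟨t', h2⟩⟩
      rw [h.cov, ← add_smul] at h1 h2
      exact ⟨⟨t + c, ⟨by linarith [ht.1], by linarith [ht.2]⟩, h1⟩, ⟨t' + c, h2⟩⟩
    · rintro ⟨⟨t, ht, h1⟩, ⟨t', h2⟩⟩
      refine ⟨⟨t - c, ⟨by linarith [ht.1], by linarith [ht.2]⟩, ?_⟩, ⟨t' - c, ?_⟩⟩
      · rw [h.cov, ← add_smul, sub_add_cancel]; exact h1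
      · rw [h.cov, ← add_smul, sub_add_cancel]; exact h2
  rw [← e]
  exact (hτ _).measure_preimage
    ((meas_Zs h v u a b).inter (meas_As h v u)).nullMeasurableSet

/-- **the main bound** -/
theorem cell [IsProbabilityMeasure P] (hτ : ∀ x, MeasurePreserving (τ x) P P)
    {G : S → E d → ℝ} (W : Wave P τ G) (v : E d) (hv : ‖v‖ ≤ 1) (u : ℝ) {δ : ℝ} (hδ : 0 < δ) :
    P.real (Zs G v u 0 δ ∩ As G v u) ≤ δ / Real.pi * P.real (As G v u) := by
  classical
  have h := W.sf
  obtain ⟨A, hA⟩ : ∃ A, A = As G v u := ⟨_, rfl⟩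
  have mA : MeasurableSet A := hA ▸ meas_As h v u
  obtain ⟨p, hp⟩ : ∃ p : ℝ, p = P.real (Zs G v u 0 δ ∩ A) := ⟨_, rfl⟩
  rw [← hA, ← hp]
  -- the cells
  obtain ⟨Ce, hCe⟩ : ∃ Ce : ℕ × Bool → Set S,
      Ce = fun i => Zs G v u ((el i : ℝ) * δ) (((el i : ℝ) + 1) * δ) ∩ A := ⟨_, rfl⟩
  have mC : ∀ i, MeasurableSet (Ce i) := fun i => by
    rw [hCe]; exact (meas_Zs h v u _ _).inter mA
  have pC : ∀ i, P.real (Ce i) = p := by
    intro i
    rw [hCe, hp]
    show (P (Zs G v u ((el i : ℝ) * δ) (((el i : ℝ) + 1) * δ) ∩ A)).toReal =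
      (P (Zs G v u 0 δ ∩ A)).toReal
    have := shift_ZA hτ h v u 0 δ ((el i : ℝ) * δ)
    rw [hA, ← this]
    congr 4 <;> ring
  -- the random sums
  obtain ⟨Y, hY⟩ : ∃ Y : ℕ → S → ℝ, Y = fun R s =>
      (∑ i ∈ Finset.range (R - 1) ×ˢ (Finset.univ : Finset Bool),
        (Ce i).indicator (fun _ => Real.log ((R : ℝ) / ((i.1 : ℝ) + 2))) s) / R := ⟨_, rfl⟩
  have lgn : ∀ (R : ℕ) (i : ℕ × Bool), i ∈ Finset.range (R - 1) ×ˢ (Finset.univ : Finset Bool) →
      0 ≤ Real.log ((R : ℝ) / ((i.1 : ℝ) + 2)) := by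
    intro R i hi
    rw [Finset.mem_product, Finset.mem_range] at hi
    refine Real.log_nonneg ?_
    rw [le_div_iff₀ (by positivity), one_mul]
    have : i.1 + 2 ≤ R := by omega
    exact_mod_cast this
  have sumL : ∀ R : ℕ, ∑ i ∈ Finset.range (R - 1) ×ˢ (Finset.univ : Finset Bool),
      Real.log ((R : ℝ) / ((i.1 : ℝ) + 2)) = 2 * Lw R := by
    intro R
    rw [Finset.sum_product]
    unfold Lw
    rw [Finset.mul_sum]
    refine Finset.sum_congr rfl fun m _ => ?_
    simp [two_mul]
  have mY : ∀ R, Measurable (Y R) := by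
    intro R
    rw [hY]
    exact (Finset.measurable_fun_sum _ fun i _ =>
      (measurable_const.indicator (mC i))).div_const _
  have Y0 : ∀ R s, 0 ≤ Y R s := by
    intro R s
    rw [hY]
    refine div_nonneg (Finset.sum_nonneg fun i hi => ?_) (Nat.cast_nonneg R)
    exact Set.indicator_nonneg (fun _ _ => lgn R i hi) s
  have Y1 : ∀ R s, Y R s ≤ 2 * (Lw R / R) := by
    intro R s
    rw [hY]
    show (∑ i ∈ _, _) / (R : ℝ) ≤ _
    rw [← mul_div_assoc, ← sumL R]
    refine div_le_div_of_nonneg_right (Finset.sum_le_sum fun i hi => ?_) (Nat.cast_nonneg R)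
    exact Set.indicator_le_self' (fun _ _ => lgn R i hi) s
  obtain ⟨B, hB⟩ : ∃ B, ∀ R : ℕ, Lw R / R ≤ B := by
    obtain ⟨B, hB⟩ := Lw_lim.bddAbove_range
    exact ⟨B, fun R => hB ⟨R, rfl⟩⟩
  have YA : ∀ R s, s ∉ A → Y R s = 0 := by
    intro R s hs
    rw [hY]
    show (∑ i ∈ _, _) / (R : ℝ) = 0
    rw [Finset.sum_eq_zero fun i _ => ?_, zero_div]
    refine Set.indicator_of_notMem ?_ _
    rw [hCe]
    exact fun h => hs h.2
  have iY : ∀ R, Integrable (Y R) P := fun R =>
    Integrable.mono' (integrable_const (2 * (Lw R / R))) (mY R).aestronglyMeasurable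
      (ae_of_all _ fun s => by
        rw [Real.norm_eq_abs, abs_of_nonneg (Y0 R s)]
        exact Y1 R s)
  have EY : ∀ R, ∫ s, Y R s ∂P = 2 * p * (Lw R / R) := by
    intro R
    rw [hY]
    show ∫ s, (∑ i ∈ _, _) / (R : ℝ) ∂P = _
    rw [integral_div, integral_finsetSum _ fun i _ =>
      (integrable_const _).indicator (mC i)]
    have : ∀ i ∈ Finset.range (R - 1) ×ˢ (Finset.univ : Finset Bool),
        ∫ s, (Ce i).indicator (fun _ => Real.log ((R : ℝ) / ((i.1 : ℝ) + 2))) s ∂P =
          p * Real.log ((R : ℝ) / ((i.1 : ℝ) + 2)) := by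
      intro i _
      rw [integral_indicator_const _ (mC i), pC i, smul_eq_mul]
    rw [Finset.sum_congr rfl this, ← Finset.mul_sum, sumL]
    ring
  -- the bound for almost every sample
  obtain ⟨Yp, hYp⟩ : ∃ Yp : ℕ → S → ℝ, Yp = fun R s =>
      A.indicator (fun s => max (Y R s - 2 / Real.pi * δ) 0) s := ⟨_, rfl⟩
  have lim : ∀ᵐ s ∂P, Tendsto (fun R => Yp R s) atTop (𝓝 0) := by
    filter_upwards [ae_fam hτ W v hv] with s hs
    obtain ⟨C, hC⟩ := hs
    by_cases hsA : s ∈ A
    · have hne : ∃ t, gl v (G s) 0 t ≠ u := by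
        rw [hA] at hsA; exact hsA
      obtain ⟨e, e0, he⟩ := count hC u hne hδ
      have b : ∀ R : ℕ, 1 ≤ R → Y R s ≤ 2 / Real.pi * δ + e R := by
        intro R hR
        have c := he R hR ((Finset.range (R - 1) ×ˢ (Finset.univ : Finset Bool)).filter
          (fun i => s ∈ Ce i)) (by
            intro i hi
            rw [Finset.mem_filter, Finset.mem_product, Finset.mem_range] at hi
            refine ⟨by omega, ?_⟩
            have := hi.2
            rw [hCe] at this
            exact this.1)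
        rw [Finset.sum_filter] at c
        rw [hY]
        refine le_trans (le_of_eq ?_) c
        show (∑ i ∈ _, _) / (R : ℝ) = _
        congr 1
      have : ∀ R : ℕ, 1 ≤ R → Yp R s ≤ |e R| := by
        intro R hR
        rw [hYp]
        show A.indicator _ s ≤ _
        rw [Set.indicator_of_mem hsA]
        refine max_le ?_ (abs_nonneg _)
        have := b R hR
        have := le_abs_self (e R)
        linarith
      have n0 : ∀ R, 0 ≤ Yp R s := by
        intro R
        rw [hYp]
        show 0 ≤ A.indicator _ s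
        rw [Set.indicator_of_mem hsA]
        exact le_max_right _ _
      refine squeeze_zero' (Eventually.of_forall n0) ?_ (by simpa using e0.abs)
      filter_upwards [eventually_ge_atTop 1] with R hR using this R hR
    · have : ∀ R, Yp R s = 0 := by
        intro R
        rw [hYp]
        exact Set.indicator_of_notMem hsA _
      simp [this]
  have mYp : ∀ R, Measurable (Yp R) := by
    intro R
    rw [hYp]
    exact (((mY R).sub measurable_const).max measurable_const).indicator mA
  have bYp : ∀ R s, ‖Yp R s‖ ≤ 2 * |B| := by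
    intro R s
    rw [hYp]
    show ‖A.indicator _ s‖ ≤ _
    by_cases hs : s ∈ A
    · rw [Set.indicator_of_mem hs, Real.norm_eq_abs, abs_of_nonneg (le_max_right _ _)]
      refine max_le ?_ (by positivity)
      have h1 := Y1 R s
      have h2 := hB R
      have h3 := le_abs_self B
      have h4 : 0 ≤ 2 / Real.pi * δ := by positivity
      linarith
    · rw [Set.indicator_of_notMem hs, norm_zero]
      positivity
  have li := tendsto_integral_of_dominated_convergence (μ := P) (F := Yp) (f := fun _ => (0 : ℝ))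
    (fun _ => 2 * |B|) (fun R => (mYp R).aestronglyMeasurable) (integrable_const _)
    (fun R => ae_of_all _ (bYp R)) lim
  rw [integral_zero] at li
  have iYp : ∀ R, Integrable (Yp R) P := fun R =>
    Integrable.mono' (integrable_const (2 * |B|)) (mYp R).aestronglyMeasurable
      (ae_of_all _ (bYp R))
  have fin : ∀ R : ℕ, 2 * p * (Lw R / R) ≤ 2 / Real.pi * δ * P.real A + ∫ s, Yp R s ∂P := by
    intro R
    rw [← EY R]
    have iA : Integrable (A.indicator fun _ => 2 / Real.pi * δ) P :=
      (integrable_const _).indicator mA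
    have le : ∫ s, Y R s ∂P ≤ ∫ s, (A.indicator (fun _ => 2 / Real.pi * δ) s + Yp R s) ∂P := by
      refine integral_mono (iY R) (iA.add (iYp R)) fun s => ?_
      show Y R s ≤ A.indicator (fun _ => 2 / Real.pi * δ) s + Yp R s
      rw [hYp]
      by_cases hs : s ∈ A
      · show Y R s ≤ A.indicator (fun _ => 2 / Real.pi * δ) s + A.indicator _ s
        rw [Set.indicator_of_mem hs, Set.indicator_of_mem hs]
        have := le_max_left (Y R s - 2 / Real.pi * δ) 0
        linarith
      · show Y R s ≤ A.indicator (fun _ => 2 / Real.pi * δ) s + A.indicator _ s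
        rw [Set.indicator_of_notMem hs, Set.indicator_of_notMem hs, YA R s hs, add_zero]
    rw [integral_add iA (iYp R), integral_indicator_const _ mA, smul_eq_mul] at le
    linarith
  have t1 : Tendsto (fun R : ℕ => 2 * p * (Lw R / R)) atTop (𝓝 (2 * p * 1)) :=
    Lw_lim.const_mul _
  have t2 : Tendsto (fun R : ℕ => 2 / Real.pi * δ * P.real A + ∫ s, Yp R s ∂P) atTop
      (𝓝 (2 / Real.pi * δ * P.real A + 0)) := tendsto_const_nhds.add li
  have := le_of_tendsto_of_tendsto' t1 t2 fin
  rw [mul_one, add_zero] at this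
  have e : 2 / Real.pi * δ * P.real A = 2 * (δ / Real.pi * P.real A) := by ring
  linarith

end

end Pool.Agent.T6.H63.ZC
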