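import Pool.Agent.T6.H63.ZC.Tr

/-!
Project ZC (helper63), MP_4fa179_mp: random plane waves.
-/

set_option autoImplicit false
open MeasureTheory Filter Topology
open scoped ContDiff ENNReal RealInnerProductSpace

namespace Pool.Agent.T6.H63.ZC

open Pool.Agent.Y139.SW Pool.Agent.T6.H63.GS

noncomputable section

/-- the circle -/
abbrev Ci : Type := AddCircle (2 * Real.pi)

instance : Fact (0 < 2 * Real.pi) := ⟨Real.two_pi_pos⟩

/-- cosine on the circle -/
def co (θ : Ci) : ℝ := Real.Angle.cos θ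

lemma co_cont : Continuous co := Real.Angle.continuous_cos

lemma co_coe (x : ℝ) : co (x : Ci) = Real.cos x := Real.Angle.cos_coe x

/-- the random plane wave -/
def pw {d : ℕ} (e : E d) (θ : Ci) (y : E d) : ℝ := √2 * co (θ + ((⟪e, y⟫ : ℝ) : Ci))

lemma pw_coe {d : ℕ} (e : E d) (r : ℝ) (y : E d) :
    pw e (r : Ci) y = √2 * Real.cos (r + ⟪e, y⟫) := by
  unfold pw
  rw [← AddCircle.coe_add, co_coe]

lemma pw_sh {d : ℕ} (e : E d) (θ : Ci) (x y : E d) :
    pw e θ (y + x) = pw e (θ + ((⟪e, x⟫ : ℝ) : Ci)) y := by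
  unfold pw
  congr 2
  rw [inner_add_right, AddCircle.coe_add]
  abel

lemma pw_meas {d : ℕ} (e : E d) (y : E d) : Measurable fun θ => pw e θ y := by
  have : Continuous fun θ : Ci => pw e θ y :=
    continuous_const.mul (co_cont.comp (continuous_id.add continuous_const))
  exact this.measurable

lemma pw_smooth {d : ℕ} (e : E d) (θ : Ci) : ContDiff ℝ ∞ (pw e θ) := by
  induction θ using QuotientAddGroup.induction_on with
  | H r =>
    have : pw e ((r : ℝ) : Ci) = fun y => √2 * Real.cos (r + ⟪e, y⟫) := funext (pw_coe e r)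
    show ContDiff ℝ ∞ (pw e ((r : ℝ) : Ci))
    rw [this]
    have h : ContDiff ℝ ∞ fun y : E d => (⟪e, y⟫ : ℝ) := (innerSL ℝ e).contDiff
    exact contDiff_const.mul (Real.contDiff_cos.comp (contDiff_const.add h))

lemma D_cos {d : ℕ} (e : E d) (c r : ℝ) (i : Fin d) :
    D i (fun y : E d => c * Real.cos (r + ⟪e, y⟫)) =
      fun y => -(c * e i) * Real.sin (r + ⟪e, y⟫) := by
  funext y
  unfold D
  have h1 : HasFDerivAt (fun y : E d => r + ⟪e, y⟫) (innerSL ℝ e) y :=
    (innerSL ℝ e).hasFDerivAt.const_add r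
  have h2 := (h1.cos).const_mul c
  rw [h2.fderiv]
  simp only [smul_apply, innerSL_apply_apply, smul_eq_mul]
  rw [EuclideanSpace.inner_single_right]
  simp; ring

lemma D_sin {d : ℕ} (e : E d) (c r : ℝ) (i : Fin d) :
    D i (fun y : E d => c * Real.sin (r + ⟪e, y⟫)) =
      fun y => (c * e i) * Real.cos (r + ⟪e, y⟫) := by
  funext y
  unfold D
  have h1 : HasFDerivAt (fun y : E d => r + ⟪e, y⟫) (innerSL ℝ e) y :=
    (innerSL ℝ e).hasFDerivAt.const_add r
  have h2 := (h1.sin).const_mul c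
  rw [h2.fderiv]
  simp only [smul_apply, innerSL_apply_apply, smul_eq_mul]
  rw [EuclideanSpace.inner_single_right]
  simp; ring

lemma pw_eigen {d : ℕ} {e : E d} (he : ‖e‖ = 1) (θ : Ci) (y : E d) :
    Lap (pw e θ) y + pw e θ y = 0 := by
  induction θ using QuotientAddGroup.induction_on with
  | H r =>
    have : pw e ((r : ℝ) : Ci) = fun y => √2 * Real.cos (r + ⟪e, y⟫) := funext (pw_coe e r)
    show Lap (pw e ((r : ℝ) : Ci)) y + pw e ((r : ℝ) : Ci) y = 0
    rw [this]
    unfold Lap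
    have h1 : ∑ i, e i ^ 2 = 1 := by
      have : ‖e‖ ^ 2 = ∑ i, e i ^ 2 := by
        rw [EuclideanSpace.norm_sq_eq]
        exact Finset.sum_congr rfl fun i _ => by rw [Real.norm_eq_abs, sq_abs]
      rw [← this, he, one_pow]
    have h2 : ∀ i, D i (D i fun y : E d => √2 * Real.cos (r + ⟪e, y⟫)) y =
        -(√2 * Real.cos (r + ⟪e, y⟫)) * e i ^ 2 := by
      intro i
      rw [D_cos, D_sin]
      ring
    simp only [h2]
    rw [← Finset.mul_sum, h1]
    ring

lemma pw_stat {d : ℕ} (e : E d) (x : E d) :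
    (AddCircle.haarAddCircle : Measure Ci).map (fun θ y => pw e θ (y + x)) =
      (AddCircle.haarAddCircle : Measure Ci).map (fun θ y => pw e θ y) := by
  have m1 : Measurable fun θ : Ci => θ + ((⟪e, x⟫ : ℝ) : Ci) := measurable_add_const _
  have m2 : Measurable fun (θ : Ci) (y : E d) => pw e θ y :=
    measurable_pi_iff.2 fun y => pw_meas e y
  have e1 : (fun (θ : Ci) (y : E d) => pw e θ (y + x)) =
      (fun (θ : Ci) (y : E d) => pw e θ y) ∘ fun θ : Ci => θ + ((⟪e, x⟫ : ℝ) : Ci) := by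
    funext θ y
    exact pw_sh e θ x y
  rw [e1, ← Measure.map_map m2 m1]
  congr 1
  exact (measurePreserving_add_right _ _).map_eq

lemma pw_var {d : ℕ} (e : E d) :
    Integrable (fun θ => pw e θ 0 ^ 2) (AddCircle.haarAddCircle : Measure Ci) ∧
    ∫ θ, pw e θ 0 ^ 2 ∂(AddCircle.haarAddCircle : Measure Ci) = 1 := by
  have e0 : ∀ θ, pw e θ 0 ^ 2 = 2 * co θ ^ 2 := by
    intro θ
    unfold pw
    rw [inner_zero_right, mul_pow, Real.sq_sqrt (by norm_num)]
    congr 3
    exact add_zero θ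
  have ii : Integrable (fun θ : Ci => co θ ^ 2) (AddCircle.haarAddCircle : Measure Ci) :=
    (co_cont.pow 2).integrable_of_hasCompactSupport (HasCompactSupport.of_compactSpace _)
  simp only [e0]
  refine ⟨ii.const_mul 2, ?_⟩
  -- shift by a quarter
  have mp := measurePreserving_add_right (AddCircle.haarAddCircle : Measure Ci)
    ((Real.pi / 2 : ℝ) : Ci)
  have e1 : ∀ θ : Ci, co (θ + ((Real.pi / 2 : ℝ) : Ci)) ^ 2 = 1 - co θ ^ 2 := by
    intro θ
    induction θ using QuotientAddGroup.induction_on with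
    | H r =>
      show co ((r : Ci) + ((Real.pi / 2 : ℝ) : Ci)) ^ 2 = 1 - co (r : Ci) ^ 2
      rw [← AddCircle.coe_add, co_coe, co_coe, Real.cos_add_pi_div_two, neg_sq,
        Real.sin_sq]
  have h1 := integral_map (μ := (AddCircle.haarAddCircle : Measure Ci)) mp.measurable.aemeasurable
    (f := fun θ => co θ ^ 2) (co_cont.pow 2).aestronglyMeasurable
  rw [mp.map_eq] at h1
  simp only [e1] at h1
  rw [integral_sub (integrable_const _) ii, integral_const] at h1
  rw [integral_const_mul]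
  simp at h1
  linarith

/-- every level is attained exactly twice in a period -/
lemma pw_count {d : ℕ} {e : E d} (he : ‖e‖ = 1) {u : ℝ} (hu : |u| < √2) (θ : Ci) (x : E d) :
    ({t | t ∈ Set.Ico 0 (2 * Real.pi) ∧ pw e θ (t • e + x) = u} : Set ℝ).encard = 2 := by
  induction θ using QuotientAddGroup.induction_on with
  | H r0 =>
  have pi0 := Real.pi_pos
  have s2 : 0 < √2 := Real.sqrt_pos.2 (by norm_num)
  obtain ⟨α, hα⟩ : ∃ α, α = Real.arccos (u / √2) := ⟨_, rfl⟩
  have b1 : -1 < u / √2 := by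
    rw [lt_div_iff₀ s2]; have := (abs_lt.1 hu).1; linarith
  have b2 : u / √2 < 1 := by
    rw [div_lt_iff₀ s2]; have := (abs_lt.1 hu).2; linarith
  have cα : Real.cos α = u / √2 := by rw [hα]; exact Real.cos_arccos b1.le b2.le
  have α0 : 0 < α := by rw [hα]; exact Real.arccos_pos.2 b2
  have α1 : α < Real.pi := by
    rw [hα]
    refine lt_of_le_of_ne (Real.arccos_le_pi _) fun h => ?_
    rw [Real.arccos_eq_pi] at h
    linarith
  obtain ⟨r, hr⟩ : ∃ r, r = r0 + ⟪e, x⟫ := ⟨_, rfl⟩
  have val : ∀ t : ℝ, pw e (r0 : Ci) (t • e + x) = √2 * Real.cos (r + t) := by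
    intro t
    rw [pw_coe, inner_add_right, inner_smul_right, real_inner_self_eq_norm_sq, he, hr]
    congr 2
    ring
  have iff : ∀ t : ℝ, pw e (r0 : Ci) (t • e + x) = u ↔
      ((t : ℝ) : Real.Angle) = ((α - r : ℝ) : Real.Angle) ∨
        ((t : ℝ) : Real.Angle) = ((-α - r : ℝ) : Real.Angle) := by
    intro t
    rw [val]
    have : √2 * Real.cos (r + t) = u ↔ Real.cos (r + t) = Real.cos α := by
      rw [cα, eq_div_iff s2.ne']
      constructor <;> intro h <;> linarith
    rw [this, Real.Angle.cos_eq_iff_coe_eq_or_eq_neg]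
    have c1 : (((r + t : ℝ) : Real.Angle) = (α : Real.Angle)) ↔
        ((t : ℝ) : Real.Angle) = ((α - r : ℝ) : Real.Angle) := by
      rw [Real.Angle.coe_add, Real.Angle.coe_sub, eq_sub_iff_add_eq, add_comm]
    have c2 : (((r + t : ℝ) : Real.Angle) = -(α : Real.Angle)) ↔
        ((t : ℝ) : Real.Angle) = ((-α - r : ℝ) : Real.Angle) := by
      rw [Real.Angle.coe_add, Real.Angle.coe_sub, Real.Angle.coe_neg, eq_sub_iff_add_eq, add_comm]
    rw [c1, c2]
  -- the representatives
  have rep : ∀ (c t : ℝ), t ∈ Set.Ico 0 (2 * Real.pi) →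
      (((t : ℝ) : Real.Angle) = ((c : ℝ) : Real.Angle) ↔ t = toIcoMod Real.two_pi_pos 0 c) := by
    intro c t ht
    constructor
    · intro h
      have h1 : toIcoMod Real.two_pi_pos 0 t = toIcoMod Real.two_pi_pos 0 c :=
        Real.Angle.angle_eq_iff_two_pi_dvd_sub.1 h |> fun ⟨k, hk⟩ => by
          have : t = c + k • (2 * Real.pi) := by
            rw [zsmul_eq_mul]; linarith
          rw [this, toIcoMod_add_zsmul]
      rw [← h1]
      refine ((toIcoMod_eq_self Real.two_pi_pos).2 ?_).symm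
      rw [zero_add]; exact ht
    · intro h
      rw [h, Real.Angle.coe_toIcoMod]
  have set : ({t | t ∈ Set.Ico 0 (2 * Real.pi) ∧ pw e (r0 : Ci) (t • e + x) = u} : Set ℝ) =
      {toIcoMod Real.two_pi_pos 0 (α - r), toIcoMod Real.two_pi_pos 0 (-α - r)} := by
    ext t
    simp only [Set.mem_insert_iff, Set.mem_singleton_iff]
    constructor
    · rintro ⟨ht, h⟩
      rw [iff, rep _ _ ht, rep _ _ ht] at h
      exact h
    · intro h
      have mem : ∀ c, toIcoMod Real.two_pi_pos 0 c ∈ Set.Ico 0 (2 * Real.pi) := by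
        intro c
        have := toIcoMod_mem_Ico Real.two_pi_pos 0 c
        rwa [zero_add] at this
      have ht : t ∈ Set.Ico 0 (2 * Real.pi) := by
        rcases h with h | h <;> rw [h] <;> exact mem _
      refine ⟨ht, ?_⟩
      rw [iff, rep _ _ ht, rep _ _ ht]
      exact h
  show ({t | t ∈ Set.Ico 0 (2 * Real.pi) ∧ pw e (r0 : Ci) (t • e + x) = u} : Set ℝ).encard = 2
  rw [set, Set.encard_pair]
  intro h
  have h1 : ((α - r : ℝ) : Real.Angle) = ((-α - r : ℝ) : Real.Angle) := by
    rw [← Real.Angle.coe_toIcoMod (α - r) 0, h, Real.Angle.coe_toIcoMod]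
  rw [Real.Angle.angle_eq_iff_two_pi_dvd_sub] at h1
  obtain ⟨k, hk⟩ := h1
  have h2 : α = Real.pi * k := by linarith
  have k1 : (0 : ℝ) < k := by
    by_contra hc
    push Not at hc
    have : Real.pi * k ≤ 0 := mul_nonpos_of_nonneg_of_nonpos pi0.le hc
    linarith
  have k2 : (k : ℝ) < 1 := by
    by_contra hc
    push Not at hc
    have : Real.pi ≤ Real.pi * k := le_mul_of_one_le_right pi0.le hc
    linarith
  have k1' : 0 < k := by exact_mod_cast k1
  have k2' : k < 1 := by exact_mod_cast k2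
  omega

end

end Pool.Agent.T6.H63.ZC
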