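import Pool.Agent.T6.H63.ZC.Cx

/-!
Project ZC (helper63), MP_4fa179_mp: Jensen's inequality for functions of exponential type one.
-/

set_option autoImplicit false
open Filter Topology Metric MeromorphicOn

namespace Pool.Agent.T6.H63.ZC

noncomputable section

lemma int_abs_sin : ∫ θ in (0 : ℝ)..(2 * Real.pi), |Real.sin θ| = 4 := by
  have pi0 := Real.pi_pos
  have ii : ∀ a b : ℝ, IntervalIntegrable (fun θ => |Real.sin θ|) MeasureTheory.volume a b :=
    fun a b => (Real.continuous_sin.abs).intervalIntegrable a b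
  rw [← intervalIntegral.integral_add_adjacent_intervals (ii 0 Real.pi) (ii Real.pi _)]
  have e1 : ∫ θ in (0 : ℝ)..Real.pi, |Real.sin θ| = ∫ θ in (0 : ℝ)..Real.pi, Real.sin θ := by
    refine intervalIntegral.integral_congr fun θ hθ => ?_
    rw [Set.uIcc_of_le pi0.le] at hθ
    exact abs_of_nonneg (Real.sin_nonneg_of_nonneg_of_le_pi hθ.1 hθ.2)
  have e2 : ∫ θ in Real.pi..(2 * Real.pi), |Real.sin θ| =
      ∫ θ in Real.pi..(2 * Real.pi), -Real.sin θ := by
    refine intervalIntegral.integral_congr fun θ hθ => ?_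
    rw [Set.uIcc_of_le (by linarith)] at hθ
    show |Real.sin θ| = -Real.sin θ
    have h1 : 0 ≤ Real.sin (θ - Real.pi) :=
      Real.sin_nonneg_of_nonneg_of_le_pi (by linarith [hθ.1]) (by linarith [hθ.2])
    rw [Real.sin_sub_pi] at h1
    exact abs_of_nonpos (by linarith)
  rw [e1, e2, integral_sin, intervalIntegral.integral_neg, integral_sin, Real.cos_two_pi]
  simp
  norm_num

lemma jensen {f : ℂ → ℂ} (hf : Differentiable ℂ f) {c : ℂ} (hc : f c ≠ 0) {ρ : ℝ} (hρ : 0 < ρ)
    {Z : Finset ℂ} (hZ : ∀ z ∈ Z, f z = 0 ∧ ‖z - c‖ ≤ ρ) {B : ℝ}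
    (hb : ∀ θ, Real.log ‖f (circleMap c ρ θ)‖ ≤ B + ρ * |Real.sin θ|) :
    ∑ z ∈ Z, Real.log (ρ / ‖z - c‖) ≤ B + 2 / Real.pi * ρ - Real.log ‖f c‖ := by
  have h1f : AnalyticOnNhd ℂ f (closedBall c |ρ|) :=
    (hf.differentiableOn.analyticOnNhd isOpen_univ).mono (Set.subset_univ _)
  have hU : AnalyticOnNhd ℂ f Set.univ := hf.differentiableOn.analyticOnNhd isOpen_univ
  have J := h1f.circleAverage_log_norm hρ.ne' hc
  have ia : IntervalIntegrable (fun θ => Real.log ‖f (circleMap c ρ θ)‖) MeasureTheory.volume 0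
      (2 * Real.pi) := by
    have := (h1f.mono sphere_subset_closedBall).meromorphicOn.circleIntegrable_log_norm
    exact this
  have up : Real.circleAverage (Real.log ‖f ·‖) c ρ ≤ B + 2 / Real.pi * ρ := by
    rw [Real.circleAverage_def]
    have m : ∫ θ in (0 : ℝ)..2 * Real.pi, Real.log ‖f (circleMap c ρ θ)‖ ≤
        ∫ θ in (0 : ℝ)..2 * Real.pi, (B + ρ * |Real.sin θ|) :=
      intervalIntegral.integral_mono_on (by positivity) ia
        ((by fun_prop : Continuous fun θ => B + ρ * |Real.sin θ|).intervalIntegrable _ _)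
        fun θ _ => hb θ
    rw [intervalIntegral.integral_add (by simp)
      ((by fun_prop : Continuous fun θ => ρ * |Real.sin θ|).intervalIntegrable _ _),
      intervalIntegral.integral_const_mul, int_abs_sin, intervalIntegral.integral_const] at m
    simp only [sub_zero, smul_eq_mul] at m ⊢
    have pi0 := Real.pi_pos
    calc (2 * Real.pi)⁻¹ * ∫ θ in (0 : ℝ)..2 * Real.pi, Real.log ‖f (circleMap c ρ θ)‖
        ≤ (2 * Real.pi)⁻¹ * (2 * Real.pi * B + ρ * 4) :=
          mul_le_mul_of_nonneg_left m (by positivity)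
      _ = B + 2 / Real.pi * ρ := by field_simp; ring
  obtain ⟨Dv, hDv⟩ : ∃ Dv, Dv = divisor f (closedBall c |ρ|) := ⟨_, rfl⟩
  rw [← hDv] at J
  have fin : Dv.support.Finite := Dv.finiteSupport (isCompact_closedBall c |ρ|)
  have nn : ∀ u, 0 ≤ (Dv u : ℝ) * Real.log (ρ * ‖c - u‖⁻¹) := by
    intro u
    by_cases hu : u ∈ closedBall c |ρ|
    · have d0 : 0 ≤ Dv u := by
        rw [hDv]; exact h1f.divisor_nonneg u
      refine mul_nonneg (by exact_mod_cast d0) ?_
      by_cases huc : u = c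
      · rw [huc]; simp
      · have p : 0 < ‖c - u‖ := norm_pos_iff.2 (sub_ne_zero.2 (Ne.symm huc))
        apply Real.log_nonneg
        rw [mem_closedBall, dist_eq_norm, abs_of_pos hρ, norm_sub_rev] at hu
        rw [← div_eq_mul_inv, le_div_iff₀ p, one_mul]
        exact hu
    · have : Dv u = 0 := by
        rw [hDv]
        exact Function.locallyFinsuppWithin.apply_eq_zero_of_notMem _ hu
      rw [this]; simp
  have ge : ∀ z ∈ Z, Real.log (ρ / ‖z - c‖) ≤ (Dv z : ℝ) * Real.log (ρ * ‖c - z‖⁻¹) ∧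
      z ∈ Dv.support := by
    intro z hz
    obtain ⟨z0, zb⟩ := hZ z hz
    have zm : z ∈ closedBall c |ρ| := by
      rw [mem_closedBall, dist_eq_norm, abs_of_pos hρ]; exact zb
    have zc : z ≠ c := fun h => hc (h ▸ z0)
    have o1 : analyticOrderAt f z ≠ 0 := by
      intro h
      exact (hU z (Set.mem_univ _)).analyticOrderAt_eq_zero.1 h z0
    have o2 : analyticOrderAt f z ≠ ⊤ := by
      intro h
      rw [analyticOrderAt_eq_top] at h
      have := hU.eqOn_zero_of_preconnected_of_eventuallyEq_zero isPreconnected_univ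
        (Set.mem_univ z) h
      exact hc (this (Set.mem_univ c))
    obtain ⟨n, hn⟩ := ENat.ne_top_iff_exists.1 o2
    have n0 : n ≠ 0 := by
      rintro rfl
      exact o1 (by rw [← hn]; rfl)
    have dv : Dv z = n := by
      rw [hDv, h1f.divisor_apply zm, ← hn]
      rfl
    have d1 : (1 : ℝ) ≤ (Dv z : ℝ) := by
      rw [dv]
      have : 1 ≤ n := Nat.one_le_iff_ne_zero.2 n0
      exact_mod_cast this
    refine ⟨?_, ?_⟩
    · have p : 0 < ‖z - c‖ := norm_pos_iff.2 (sub_ne_zero.2 zc)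
      have l0 : 0 ≤ Real.log (ρ / ‖z - c‖) :=
        Real.log_nonneg (by rw [le_div_iff₀ p, one_mul]; exact zb)
      rw [norm_sub_rev c z, ← div_eq_mul_inv]
      nlinarith
    · show Dv z ≠ 0
      rw [dv]
      exact_mod_cast n0
  have lo : ∑ z ∈ Z, Real.log (ρ / ‖z - c‖) ≤ ∑ᶠ u, (Dv u : ℝ) * Real.log (ρ * ‖c - u‖⁻¹) := by
    rw [finsum_eq_sum_of_support_subset (s := fin.toFinset) _ (by
      intro u hu
      rw [Set.Finite.coe_toFinset]
      intro h0
      refine hu ?_
      show (Dv u : ℝ) * Real.log (ρ * ‖c - u‖⁻¹) = 0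
      rw [h0]; simp)]
    calc ∑ z ∈ Z, Real.log (ρ / ‖z - c‖)
        ≤ ∑ z ∈ Z, (Dv z : ℝ) * Real.log (ρ * ‖c - z‖⁻¹) :=
          Finset.sum_le_sum fun z hz => (ge z hz).1
      _ ≤ ∑ z ∈ fin.toFinset, (Dv z : ℝ) * Real.log (ρ * ‖c - z‖⁻¹) :=
          Finset.sum_le_sum_of_subset_of_nonneg
            (fun z hz => fin.mem_toFinset.2 (ge z hz).2) fun u _ _ => nn u
  have J' : Real.circleAverage (Real.log ‖f ·‖) c ρ =
      ∑ᶠ u, (Dv u : ℝ) * Real.log (ρ * ‖c - u‖⁻¹) + Real.log ‖f c‖ := J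
  linarith

/-- Jensen's inequality for the extension of a family -/
lemma fam_jensen {g : ℕ → ℝ → ℝ} {C : ℝ} (h : Fam g C) (u t0 : ℝ) (ht : g 0 t0 ≠ u) {ρ : ℝ}
    (hρ : 0 < ρ) {Z : Finset ℝ} (hZ : ∀ z ∈ Z, g 0 z = u ∧ |z - t0| ≤ ρ) :
    ∑ z ∈ Z, Real.log (ρ / |z - t0|) ≤
      (Real.log (C + |u| + 1) + Real.log (|t0| + ρ + 1) + Real.log (1 + ρ)) + 2 / Real.pi * ρ -
        Real.log |g 0 t0 - u| := by
  classical
  have C0 := h.C0
  obtain ⟨f, hf⟩ : ∃ f : ℂ → ℂ, f = fun z => H g 0 z - u := ⟨_, rfl⟩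
  have df : Differentiable ℂ f := by
    rw [hf]; exact (Hd h 0).sub_const _
  have fr : ∀ t : ℝ, f t = ((g 0 t - u : ℝ) : ℂ) := by
    intro t
    rw [hf]
    show H g 0 t - u = _
    rw [Hr h 0 t, zero_add]; push_cast; rfl
  have fc : f t0 ≠ 0 := by
    rw [fr]
    exact_mod_cast sub_ne_zero.2 ht
  have nf : ∀ t : ℝ, ‖f t‖ = |g 0 t - u| := fun t => by
    rw [fr, Complex.norm_real, Real.norm_eq_abs]
  have J := jensen df fc hρ (Z := Z.map ⟨fun t : ℝ => (t : ℂ), Complex.ofReal_injective⟩)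
    (B := Real.log (C + |u| + 1) + Real.log (|t0| + ρ + 1) + Real.log (1 + ρ)) (by
      intro z hz
      rw [Finset.mem_map] at hz
      obtain ⟨t, ht, rfl⟩ := hz
      obtain ⟨h1, h2⟩ := hZ t ht
      refine ⟨?_, ?_⟩
      · show f (t : ℂ) = 0
        rw [fr, h1, sub_self]; simp
      · show ‖(t : ℂ) - (t0 : ℂ)‖ ≤ ρ
        rw [← Complex.ofReal_sub, Complex.norm_real, Real.norm_eq_abs]
        exact h2) (by
      intro θ
      obtain ⟨z, hz⟩ : ∃ z, z = circleMap (t0 : ℂ) ρ θ := ⟨_, rfl⟩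
      rw [← hz]
      have zr : z.re = t0 + ρ * Real.cos θ := by
        rw [hz, circleMap]
        simp [Complex.exp_re]
      have zi : z.im = ρ * Real.sin θ := by
        rw [hz, circleMap]
        simp [Complex.exp_im]
      have b1 : |z.re| ≤ |t0| + ρ := by
        rw [zr]
        refine (abs_add_le _ _).trans ?_
        rw [abs_mul, abs_of_pos hρ]
        have := mul_le_of_le_one_right hρ.le (Real.abs_cos_le_one θ)
        linarith
      have b2 : |z.im| = ρ * |Real.sin θ| := by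
        rw [zi, abs_mul, abs_of_pos hρ]
      have b3 : |z.im| ≤ ρ := by
        rw [b2]
        exact mul_le_of_le_one_right hρ.le (Real.abs_sin_le_one θ)
      have g1 := Hg h z
      have e1 : 1 ≤ Real.exp |z.im| := Real.one_le_exp (abs_nonneg _)
      have g2 : ‖f z‖ ≤ (C + |u| + 1) * (|t0| + ρ + 1) * (1 + ρ) * Real.exp |z.im| := by
        rw [hf]
        refine (norm_sub_le _ _).trans ?_
        rw [Complex.norm_real, Real.norm_eq_abs]
        have k1 : C * (|z.re| + 1) * ((1 + |z.im|) * Real.exp |z.im|) ≤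
            C * ((|t0| + ρ + 1) * ((1 + ρ) * Real.exp |z.im|)) := by
          rw [mul_assoc]
          gcongr
        have k2 : |u| ≤ (|u| + 1) * ((|t0| + ρ + 1) * ((1 + ρ) * Real.exp |z.im|)) := by
          have m1 : 1 ≤ (|t0| + ρ + 1) * ((1 + ρ) * Real.exp |z.im|) := by
            have a1 : (1 : ℝ) ≤ |t0| + ρ + 1 := by
              have := abs_nonneg t0; linarith
            have a2 : (1 : ℝ) ≤ 1 + ρ := by linarith
            exact one_le_mul_of_one_le_of_one_le a1 (one_le_mul_of_one_le_of_one_le a2 e1)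
          have u0 := abs_nonneg u
          nlinarith
        calc ‖H g 0 z‖ + |u|
            ≤ C * ((|t0| + ρ + 1) * ((1 + ρ) * Real.exp |z.im|)) +
              (|u| + 1) * ((|t0| + ρ + 1) * ((1 + ρ) * Real.exp |z.im|)) :=
              add_le_add (g1.trans k1) k2
          _ = _ := by ring
      have p1 : 0 < C + |u| + 1 := by positivity
      have p2 : 0 < |t0| + ρ + 1 := by positivity
      have p3 : 0 < 1 + ρ := by positivity
      have lg : Real.log ((C + |u| + 1) * (|t0| + ρ + 1) * (1 + ρ) * Real.exp |z.im|) =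
          Real.log (C + |u| + 1) + Real.log (|t0| + ρ + 1) + Real.log (1 + ρ) + |z.im| := by
        rw [Real.log_mul (by positivity) (Real.exp_pos _).ne', Real.log_exp,
          Real.log_mul (by positivity) p3.ne', Real.log_mul p1.ne' p2.ne']
      rw [← b2, ← lg]
      by_cases hz0 : ‖f z‖ = 0
      · rw [hz0, Real.log_zero]
        rw [lg]
        have l1 : 0 ≤ Real.log (C + |u| + 1) := Real.log_nonneg (by
          have := abs_nonneg u; linarith)
        have l2 : 0 ≤ Real.log (|t0| + ρ + 1) := Real.log_nonneg (by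
          have := abs_nonneg t0; linarith)
        have l3 : 0 ≤ Real.log (1 + ρ) := Real.log_nonneg (by linarith)
        have := abs_nonneg z.im
        linarith
      · exact Real.log_le_log (lt_of_le_of_ne (norm_nonneg _) (Ne.symm hz0)) g2)
  rw [nf] at J
  rw [Finset.sum_map] at J
  refine le_trans (le_of_eq ?_) J
  refine Finset.sum_congr rfl fun t _ => ?_
  show Real.log (ρ / |t - t0|) = Real.log (ρ / ‖(t : ℂ) - (t0 : ℂ)‖)
  rw [← Complex.ofReal_sub, Complex.norm_real, Real.norm_eq_abs]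

end

end Pool.Agent.T6.H63.ZC
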